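import Pool.Agent.Helper1.GN.Defs

/-!
BLOCK GN-3 (about 80 lines). Monotone assignment of colours; labels modulo `N`.

Proof in words.
* `arc_assign`: sort the elements of `L` by decreasing `φ` (e.g. `Tuple.sort` for `fun i => - φ (enumeration i)`, or induction on `L.card`: remove an element of `L` with the smallest `φ` and give it the largest element of `C`) and give the `i`-th one the `i`-th smallest element of `C`.
* `cast_inj`: `x ≡ y (mod N)` and `|x - y| < N` (`ZMod.intCast_eq_intCast_iff_dvd_sub` or `ZMod.intCast_eq_intCast_iff`, `Int.eq_zero_of_abs_lt_dvd`).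
* `card_arc`: `[c, d) \ D` has `d - c - #(D ∩ [c, d))` elements.
-/

set_option autoImplicit false

namespace Pool.Agent.Helper1.GN

open Finset Pool.Agent.Helper19.GH

theorem arc_assign {V : Type} [DecidableEq V] (L : Finset V) (φ : V → ℤ) (C : Finset ℤ) (h : C.card = L.card) :
    ∃ w : V → ℤ, (∀ u ∈ L, w u ∈ C) ∧ (∀ u ∈ L, ∀ v ∈ L, w u = w v → u = v) ∧ ∀ u ∈ L, ∀ v ∈ L, w u < w v → φ v ≤ φ u := by
  revert C
  refine Finset.induction_on_min_value φ (motive := fun L => ∀ C : Finset ℤ, C.card = L.card →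
    ∃ w : V → ℤ, (∀ u ∈ L, w u ∈ C) ∧ (∀ u ∈ L, ∀ v ∈ L, w u = w v → u = v) ∧
      ∀ u ∈ L, ∀ v ∈ L, w u < w v → φ v ≤ φ u) L ?_ ?_
  · intro C _
    exact ⟨fun _ => 0, by simp, by simp, by simp⟩
  · intro a s ha hmin ih C hC
    rw [Finset.card_insert_of_notMem ha] at hC
    have hne : C.Nonempty := by
      rw [← Finset.card_pos]; omega
    have hmC := C.max'_mem hne
    have hle : ∀ x ∈ C, x ≤ C.max' hne := fun x hx => C.le_max' x hx
    generalize C.max' hne = m at hmC hle
    obtain ⟨w, h1, h2, h3⟩ := ih (C.erase m) (by rw [Finset.card_erase_of_mem hmC]; omega)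
    have hne2 : ∀ u ∈ s, u ≠ a := fun u hu h => ha (h ▸ hu)
    have h4 : ∀ u ∈ s, w u ≠ m := fun u hu => (Finset.mem_erase.mp (h1 u hu)).1
    have h5 : ∀ u ∈ s, w u ≤ m := fun u hu => hle _ (Finset.mem_erase.mp (h1 u hu)).2
    refine ⟨fun u => if u = a then m else w u, ?_, ?_, ?_⟩
    · intro u hu
      rcases Finset.mem_insert.mp hu with rfl | hu
      · simpa using hmC
      · simp only [if_neg (hne2 u hu)]
        exact (Finset.mem_erase.mp (h1 u hu)).2
    · intro u hu v hv h
      rcases Finset.mem_insert.mp hu with rfl | hu1 <;> rcases Finset.mem_insert.mp hv with rfl | hv1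
      · rfl
      · simp only [if_true, if_neg (hne2 v hv1)] at h
        exact absurd h.symm (h4 v hv1)
      · simp only [if_true, if_neg (hne2 u hu1)] at h
        exact absurd h (h4 u hu1)
      · simp only [if_neg (hne2 u hu1), if_neg (hne2 v hv1)] at h
        exact h2 u hu1 v hv1 h
    · intro u hu v hv h
      rcases Finset.mem_insert.mp hu with rfl | hu1 <;> rcases Finset.mem_insert.mp hv with rfl | hv1
      · exact le_refl _
      · simp only [if_true, if_neg (hne2 v hv1)] at h
        exact absurd h (not_lt.mpr (h5 v hv1))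
      · exact hmin u hu1
      · simp only [if_neg (hne2 u hu1), if_neg (hne2 v hv1)] at h
        exact h3 u hu1 v hv1 h

theorem cast_inj {N : ℕ} {lo x y : ℤ} (hx : lo ≤ x) (hx' : x < lo + N) (hy : lo ≤ y) (hy' : y < lo + N)
    (h : (x : ZMod N) = (y : ZMod N)) : x = y := by
  have h1 := (ZMod.intCast_eq_intCast_iff_dvd_sub x y N).mp h
  have h2 : y - x = 0 := by
    refine Int.eq_zero_of_abs_lt_dvd h1 ?_
    rw [abs_lt]
    constructor <;> linarith
  linarith

theorem card_arc (D : Finset ℤ) {c d : ℤ} (h : c ≤ d) :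
    ((((Ico c d) \ D).card : ℕ) : ℤ) = d - c - ((D.filter fun z => c ≤ z ∧ z < d).card : ℤ) := by
  have h1 := Finset.card_sdiff_add_card_inter (Ico c d) D
  have h2 : Ico c d ∩ D = D.filter fun z => c ≤ z ∧ z < d := by
    ext z
    simp only [Finset.mem_inter, Finset.mem_Ico, Finset.mem_filter]
    tauto
  rw [h2, Int.card_Ico] at h1
  have h3 : ((d - c).toNat : ℤ) = d - c := Int.toNat_of_nonneg (by linarith)
  omega

end Pool.Agent.Helper1.GN
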