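import Pool.Agent.Helper1.GN.Defs

/-!
BLOCK GN-1 (about 150 lines). Block decomposition: `q` blocks of rows and of columns, sizes `N i`.

Proof in words. `decomposes_of_inj` (`Helper83/GH/Inj`) with `I = R = C = (i : Fin q) × ZMod (N i)` (cardinality `∑ N i = n`; `NeZero (N i)` from `hN`, `ZMod.card`). For each `i` choose the labelling `f i` (`hf`), and by `hKB`, `hKA` injective maps
`outB i` from the removed vertices in `B` to `{(j, y) : G i j}` and `outA i` from the removed vertices outside `B` to `{(j, y) : j ≠ i, ¬ G i j}` (`Finset.exists_..`/`Function.Embedding.nonempty_of_card_le`; the number of the pairs `(j, y)` with `G i j` is `∑_j if G i j then N j else 0`).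
`row (i,k) a = (i, k + f i a)` for `a ∈ K i`, `outA i a` for `a ∉ K i`; `col (i,k) v = (i, k + f i v)` for `v ∈ K i`, `outB i v` for `v ∉ K i`.
* `row`, `col` are injective in the vertex: kept vertices have first component `i`, removed ones another one (`hG0`).
* `hcell`: let `a v`, `a' v'` be edges, the copies `(i,k)`, `(i',k')`, equal cells. By `hK` in each edge at most one end is removed.
  - `a, v` kept: row and column blocks are both `i`. If `a'` or `v'` is removed (in `i'`), the other one is kept, so its block `i'` is `i` and the block of the removed one is not `i'`: contradiction. So `a', v'` are kept, `i = i'`, `f a - f v = f a' - f v'` (subtract), `Lab.diff`, `k = k'`.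
  - `a` kept, `v` removed: row block `i`, column block `j` with `G i j`. `a', v'` both kept: `i = i' = j`, contradiction to `hG0`. `v'` removed, `a'` kept: `i = i'`, `outB i v = outB i v'`, so `v = v'`, `a = a'` by `hK`, `k = k'`. `a'` removed, `v'` kept: column block `i' = j`, row block `i` with `¬ G i' i` and `i ≠ i'`: contradiction to `hG`.
  - `a` removed, `v` kept: symmetric.
-/

set_option autoImplicit false

namespace Pool.Agent.Helper1.GN

open Finset Pool.Agent.Helper19.GH

theorem card_sig {q : ℕ} (N : Fin q → ℕ) [∀ i, NeZero (N i)] (P : Fin q → Prop) [DecidablePred P] :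
    Fintype.card {p : (j : Fin q) × ZMod (N j) // P p.1} = ∑ j, if P j then N j else 0 := by
  rw [Fintype.card_subtype, card_filter, Fintype.sum_sigma]
  refine Finset.sum_congr rfl fun j _ => ?_
  by_cases h : P j
  · simp [h, ZMod.card]
  · simp [h]

theorem exists_out {V : Type} [Fintype V] [DecidableEq V] {q : ℕ} (N : Fin q → ℕ) [∀ i, NeZero (N i)] (P : Fin q → Prop)
    [DecidablePred P] (i : Fin q) (S : Finset V) (h : S.card ≤ ∑ j, if P j then N j else 0) :
    ∃ out : V → (j : Fin q) × ZMod (N j), (∀ x ∈ S, P (out x).1) ∧ (∀ x ∈ S, ∀ y ∈ S, out x = out y → x = y) := by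
  rw [← card_sig N P, ← Fintype.card_coe] at h
  obtain ⟨e⟩ := Function.Embedding.nonempty_of_card_le h
  refine ⟨fun x => if hx : x ∈ S then (e ⟨x, hx⟩).1 else ⟨i, 0⟩, fun x hx => ?_, fun x hx y hy hxy => ?_⟩
  · simp only [dif_pos hx]
    exact (e ⟨x, hx⟩).2
  · simp only [dif_pos hx, dif_pos hy] at hxy
    exact congrArg Subtype.val (e.injective (Subtype.ext hxy))

theorem sig_eq {q : ℕ} {N : Fin q → ℕ} {i : Fin q} {a b : ZMod (N i)}
    (h : (⟨i, a⟩ : (j : Fin q) × ZMod (N j)) = ⟨i, b⟩) : a = b := by
  simpa using h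

open Classical in
theorem blocks (V : Type) [Fintype V] [DecidableEq V] (T : SimpleGraph V) (hT : T.IsTree) (n : ℕ) (hn : Fintype.card V = n + 1)
    (B : Finset V) (hB : ∀ u w, T.Adj u w → (u ∈ B ↔ w ∉ B)) (q : ℕ) (N : Fin q → ℕ) (hN : ∀ i, 0 < N i)
    (hs : ∑ i, N i = n) (G : Fin q → Fin q → Prop) (hG : ∀ i j, G i j → G j i) (hG0 : ∀ i, ¬ G i i) (K : Fin q → Finset V)
    (hK : ∀ i x, x ∉ K i → ∀ y, T.Adj x y → y ∈ K i ∧ ∀ z, T.Adj x z → z = y)
    (hKB : ∀ i, (univ.filter fun x => x ∉ K i ∧ x ∈ B).card ≤ ∑ j, if G i j then N j else 0)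
    (hKA : ∀ i, (univ.filter fun x => x ∉ K i ∧ x ∉ B).card ≤ ∑ j, if j ≠ i ∧ ¬ G i j then N j else 0)
    (hf : ∀ i, ∃ f : V → ZMod (N i), Lab T B (K i) (N i) f) :
    Decomposes T (completeBipartiteGraph (Fin n) (Fin n)) := by
  have inst : ∀ i, NeZero (N i) := fun i => ⟨(hN i).ne'⟩
  choose f hf using hf
  have hexA : ∀ i, ∃ out : V → (j : Fin q) × ZMod (N j), (∀ x ∈ univ.filter fun x => x ∉ K i ∧ x ∉ B, (out x).1 ≠ i ∧ ¬ G i (out x).1) ∧
      (∀ x ∈ univ.filter fun x => x ∉ K i ∧ x ∉ B, ∀ y ∈ univ.filter fun x => x ∉ K i ∧ x ∉ B, out x = out y → x = y) :=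
    fun i => exists_out N (fun j => j ≠ i ∧ ¬ G i j) i _ (hKA i)
  have hexB : ∀ i, ∃ out : V → (j : Fin q) × ZMod (N j), (∀ x ∈ univ.filter fun x => x ∉ K i ∧ x ∈ B, G i (out x).1) ∧
      (∀ x ∈ univ.filter fun x => x ∉ K i ∧ x ∈ B, ∀ y ∈ univ.filter fun x => x ∉ K i ∧ x ∈ B, out x = out y → x = y) :=
    fun i => exists_out N (fun j => G i j) i _ (hKB i)
  choose outA hA using hexA
  choose outB hB' using hexB
  have A1 : ∀ i a, a ∉ K i → a ∉ B → (outA i a).1 ≠ i ∧ ¬ G i (outA i a).1 := fun i a h1 h2 =>
    (hA i).1 a (by simp [h1, h2])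
  have A2 : ∀ i a a', a ∉ K i → a ∉ B → a' ∉ K i → a' ∉ B → outA i a = outA i a' → a = a' := fun i a a' h1 h2 h3 h4 h =>
    (hA i).2 a (by simp [h1, h2]) a' (by simp [h3, h4]) h
  have B1 : ∀ i a, a ∉ K i → a ∈ B → G i (outB i a).1 := fun i a h1 h2 =>
    (hB' i).1 a (by simp [h1, h2])
  have B2 : ∀ i a a', a ∉ K i → a ∈ B → a' ∉ K i → a' ∈ B → outB i a = outB i a' → a = a' := fun i a a' h1 h2 h3 h4 h =>
    (hB' i).2 a (by simp [h1, h2]) a' (by simp [h3, h4]) h
  clear hA hB' hKA hKB
  let row : ((i : Fin q) × ZMod (N i)) → V → ((i : Fin q) × ZMod (N i)) := fun p a =>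
    if a ∈ K p.1 then ⟨p.1, p.2 + f p.1 a⟩ else outA p.1 a
  let col : ((i : Fin q) × ZMod (N i)) → V → ((i : Fin q) × ZMod (N i)) := fun p a =>
    if a ∈ K p.1 then ⟨p.1, p.2 + f p.1 a⟩ else outB p.1 a
  have rowK : ∀ i s a, a ∈ K i → row ⟨i, s⟩ a = ⟨i, s + f i a⟩ := fun i s a h => if_pos h
  have rowN : ∀ i s a, a ∉ K i → row ⟨i, s⟩ a = outA i a := fun i s a h => if_neg h
  have colK : ∀ i s a, a ∈ K i → col ⟨i, s⟩ a = ⟨i, s + f i a⟩ := fun i s a h => if_pos h
  have colN : ∀ i s a, a ∉ K i → col ⟨i, s⟩ a = outB i a := fun i s a h => if_neg h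
  have hcard : Fintype.card ((i : Fin q) × ZMod (N i)) = n := by
    rw [Fintype.card_sigma, ← hs]
    exact Finset.sum_congr rfl fun i _ => ZMod.card (N i)
  refine Pool.Agent.Helper83.GH.decomposes_of_inj T hT n hn B hB hcard hcard hcard row col ?_ ?_ ?_
  · rintro ⟨i, s⟩ a a' ha ha' h
    by_cases h1 : a ∈ K i <;> by_cases h2 : a' ∈ K i
    · rw [rowK i s a h1, rowK i s a' h2] at h
      exact (hf i).rows a h1 a' h2 ha ha' (add_left_cancel (sig_eq h))
    · rw [rowK i s a h1, rowN i s a' h2] at h
      exact absurd (congrArg Sigma.fst h).symm (A1 i a' h2 ha').1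
    · rw [rowN i s a h1, rowK i s a' h2] at h
      exact absurd (congrArg Sigma.fst h) (A1 i a h1 ha).1
    · rw [rowN i s a h1, rowN i s a' h2] at h
      exact A2 i a a' h1 ha h2 ha' h
  · rintro ⟨i, s⟩ a a' ha ha' h
    by_cases h1 : a ∈ K i <;> by_cases h2 : a' ∈ K i
    · rw [colK i s a h1, colK i s a' h2] at h
      exact (hf i).cols a h1 a' h2 ha ha' (add_left_cancel (sig_eq h))
    · rw [colK i s a h1, colN i s a' h2] at h
      have h3 := B1 i a' h2 ha'
      rw [← h] at h3
      exact absurd h3 (hG0 i)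
    · rw [colN i s a h1, colK i s a' h2] at h
      have h3 := B1 i a h1 ha
      rw [h] at h3
      exact absurd h3 (hG0 i)
    · rw [colN i s a h1, colN i s a' h2] at h
      exact B2 i a a' h1 ha h2 ha' h
  · rintro ⟨i, s⟩ ⟨i', s'⟩ a a' v v' hav hav' ha ha' h1 h2
    have hv : v ∈ B := by
      by_contra hv
      exact ha ((hB a v hav).2 hv)
    have hv' : v' ∈ B := by
      by_contra hv
      exact ha' ((hB a' v' hav').2 hv)
    by_cases ka : a ∈ K i
    · by_cases kv : v ∈ K i
      · rw [rowK i s a ka] at h1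
        rw [colK i s v kv] at h2
        by_cases ka' : a' ∈ K i'
        · rw [rowK i' s' a' ka'] at h1
          by_cases kv' : v' ∈ K i'
          · rw [colK i' s' v' kv'] at h2
            have hi : i = i' := congrArg Sigma.fst h1
            subst hi
            have e1 := sig_eq h1
            have e2 := sig_eq h2
            have e3 : f i a - f i v = f i a' - f i v' := by
              have e4 := congrArg₂ (fun x y => x - y) e1 e2
              simpa using e4
            obtain ⟨h3, h4⟩ := (hf i).diff a ka v kv a' ka' v' kv' ha hv ha' hv' hav hav' e3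
            subst h3 h4
            exact ⟨by rw [add_right_cancel e1], rfl, rfl⟩
          · rw [colN i' s' v' kv'] at h2
            have hi : i = i' := congrArg Sigma.fst h1
            subst hi
            have h3 := B1 i v' kv' hv'
            rw [← h2] at h3
            exact absurd h3 (hG0 i)
        · have kv' : v' ∈ K i' := (hK i' a' ka' v' hav').1
          rw [rowN i' s' a' ka'] at h1
          rw [colK i' s' v' kv'] at h2
          have hi : i = i' := congrArg Sigma.fst h2
          subst hi
          exact absurd (congrArg Sigma.fst h1).symm (A1 i a' ka' ha').1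
      · rw [rowK i s a ka] at h1
        rw [colN i s v kv] at h2
        have h3 := B1 i v kv hv
        by_cases ka' : a' ∈ K i'
        · rw [rowK i' s' a' ka'] at h1
          have hi : i = i' := congrArg Sigma.fst h1
          subst hi
          by_cases kv' : v' ∈ K i
          · rw [colK i s' v' kv'] at h2
            rw [h2] at h3
            exact absurd h3 (hG0 i)
          · rw [colN i s' v' kv'] at h2
            have h4 := B2 i v v' kv hv kv' hv' h2
            subst h4
            have h5 : a' = a := (hK i v kv a hav.symm).2 a' hav'.symm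
            subst h5
            exact ⟨by rw [add_right_cancel (sig_eq h1)], rfl, rfl⟩
        · have kv' : v' ∈ K i' := (hK i' a' ka' v' hav').1
          rw [rowN i' s' a' ka'] at h1
          rw [colK i' s' v' kv'] at h2
          rw [h2] at h3
          have h4 := (A1 i' a' ka' ha').2
          rw [← h1] at h4
          exact absurd (hG _ _ h3) h4
    · have kv : v ∈ K i := (hK i a ka v hav).1
      rw [rowN i s a ka] at h1
      rw [colK i s v kv] at h2
      by_cases ka' : a' ∈ K i'
      · rw [rowK i' s' a' ka'] at h1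
        by_cases kv' : v' ∈ K i'
        · rw [colK i' s' v' kv'] at h2
          have hi : i = i' := congrArg Sigma.fst h2
          subst hi
          exact absurd (congrArg Sigma.fst h1) (A1 i a ka ha).1
        · rw [colN i' s' v' kv'] at h2
          have h3 := B1 i' v' kv' hv'
          rw [← h2] at h3
          have h4 := (A1 i a ka ha).2
          rw [h1] at h4
          exact absurd (hG _ _ h3) h4
      · have kv' : v' ∈ K i' := (hK i' a' ka' v' hav').1
        rw [rowN i' s' a' ka'] at h1
        rw [colK i' s' v' kv'] at h2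
        have hi : i = i' := congrArg Sigma.fst h2
        subst hi
        have h3 := A2 i a a' ka ha ka' ha' h1
        subst h3
        have h4 : v' = v := (hK i a ka v hav).2 v' hav'
        subst h4
        exact ⟨by rw [add_right_cancel (sig_eq h2)], rfl, rfl⟩

end Pool.Agent.Helper1.GN
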