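import Pool.Agent.Helper1.GN.Ext

/-!
BLOCK GN-5 (about 150 lines). The labelling of the core, case B: the root `r` (a row) gets the label `F`, the column `b` a label near `F`, all other vertices labels in `[0, m)`, and the colour `F - f b` is the colour of an edge of the core.

Proof in words. `W = 0` for all vertices.
* If `par b = r`: `S0 = {r, b}`, `f0 r = f0 b = F` (only one colour `0`, the classes are different: `dep r = 0`, `dep b` odd), `extend_lab`; the edge `b`: `cl f b = f r - f b = F - f b` (`dep b` odd).
* If `par b ≠ r`: `dep b` is odd, `≠ 1` (`dep b = dep (par b) + 1`, `dep (par b) = 0` only for `r`: `dep_par`), so `dep b ≥ 3`. `S1 = {x ∈ S : dep x < dep b}` is closed under parents, contains `r`, `par b` and (iterate `par` from `b`; or: induction) some `x2` with `dep x2 = 2`; `par x2 ≠ r`.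
  Extend from `S0 = {r}`, `f0 = F` to `S1`: `f1`, values in `[0, m)` outside `r`. Colours of edges of `S1`: `F - f1 x ∈ (F - m, F]` for the children `x` of `r`, the others in `(-m, m)`. Let `w0 = cl f1 x2 = f1 x2 - f1 (par x2) ∈ (-m, m)`, `G = F - w0`, `f2 = update f1 b G`, `S2 = insert b S1`.
  `f2` is a labelling of `S2`: the label `G > F - m ≥ m` is different from the labels of the odd vertices of `S1` (in `[0, m)`); the colour of `b` is `f1 (par b) - G < m - (F - m) = 2m - F ≤ -m`, different from all colours of `S1` (`> -m`; `F - m ≥ 0`). Extend from `S2` to `S`. The edge with the colour `F - f b = w0` is `x2`.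
-/

set_option autoImplicit false

namespace Pool.Agent.Helper1.GN

open Finset Pool.Agent.Helper19.GH

private theorem exists_dep26 {V : Type} [Fintype V] [DecidableEq V] {T : SimpleGraph V} {r : V}
    {par : V → V} {dep : V → ℕ} (h : RT T r par dep) {S : Finset V}
    (hcl : ∀ x ∈ S, x ≠ r → par x ∈ S) (k : ℕ) :
    ∀ n : ℕ, ∀ x ∈ S, dep x = k + n → ∃ y ∈ S, dep y = k := by
  intro n
  induction n with
  | zero => exact fun x hx hd => ⟨x, hx, hd⟩
  | succ n ih =>
    intro x hx hd
    have hxr : x ≠ r := by
      rintro rfl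
      rw [h.root] at hd
      omega
    have h1 := h.dep_par x hxr
    exact ih (par x) (hcl x hx hxr) (by omega)

private theorem cl_congr26 {V : Type} {par : V → V} {dep : V → ℕ} {f g : V → ℤ} {x : V}
    (h1 : f x = g x) (h2 : f (par x) = g (par x)) : cl par dep f x = cl par dep g x := by
  unfold cl
  rw [h1, h2]

private theorem cl_abs26 {V : Type} {par : V → V} {dep : V → ℕ} {f : V → ℤ} {x : V} {m : ℕ}
    (h1 : 0 ≤ f x ∧ f x < m) (h2 : 0 ≤ f (par x) ∧ f (par x) < m) :
    -(m : ℤ) < cl par dep f x ∧ cl par dep f x < m := by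
  unfold cl
  split_ifs <;> omega

theorem coreB {V : Type} [Fintype V] [DecidableEq V] {T : SimpleGraph V} {r : V} {par : V → V} {dep : V → ℕ}
    (h : RT T r par dep) {S : Finset V} (hr : r ∈ S) (hcl : ∀ x ∈ S, x ≠ r → par x ∈ S) {m F : ℕ} (hm : 2 * S.card ≤ m)
    (hF : 3 * m ≤ F) {b : V} (hb : b ∈ S) (hbo : ¬ Even (dep b)) :
    ∃ f : V → ℤ, LabR r par dep S f ∧ f r = F ∧ (∀ x ∈ S, x ≠ r → x ≠ b → 0 ≤ f x ∧ f x < m) ∧
      (F : ℤ) - m < f b ∧ f b < F + m ∧ ∃ x ∈ S, x ≠ r ∧ cl par dep f x = F - f b := by
  have hbr : b ≠ r := by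
    rintro rfl
    rw [h.root] at hbo
    exact hbo (by decide)
  have hpar : ∀ x, x ≠ r → par x ≠ x := by
    intro x hx h1
    have h2 := h.dep_par x hx
    rw [h1] at h2
    omega
  have hScard : 1 ≤ S.card := Finset.card_pos.2 ⟨r, hr⟩
  have hm0 : 2 ≤ m := by omega
  have hclb : ∀ f : V → ℤ, cl par dep f b = f (par b) - f b := by
    intro f
    unfold cl
    rw [if_neg hbo]
  by_cases hpb : par b = r
  · obtain ⟨f, hf1, hf2, hf3⟩ := extend_lab h (S0 := {r, b}) (S := S) (by simp)
      (by
        intro x hx hxr
        simp only [mem_insert, mem_singleton] at hx ⊢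
        rcases hx with rfl | rfl
        · exact absurd rfl hxr
        · exact Or.inl hpb)
      hcl (by
        intro x hx
        simp only [mem_insert, mem_singleton] at hx
        rcases hx with rfl | rfl
        · exact hr
        · exact hb) hm (fun _ => 0) (fun _ => (F : ℤ)) (by
        refine ⟨?_, ?_⟩
        · intro x hx y hy hxy _
          simp only [mem_insert, mem_singleton] at hx hy
          rcases hx with rfl | rfl <;> rcases hy with rfl | rfl
          · rfl
          · rw [h.root] at hxy
            exact absurd (hxy.1 (by decide)) hbo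
          · rw [h.root] at hxy
            exact absurd (hxy.2 (by decide)) hbo
          · rfl
        · intro x hx y hy hxr hyr _
          simp only [mem_insert, mem_singleton] at hx hy
          rcases hx with rfl | rfl
          · exact absurd rfl hxr
          · rcases hy with rfl | rfl
            · exact absurd rfl hyr
            · rfl)
    have hfr : f r = F := hf1 r (by simp)
    have hfb : f b = F := hf1 b (by simp)
    refine ⟨f, hf3, hfr, ?_, ?_, ?_, b, hb, hbr, ?_⟩
    · intro x hx hxr hxb
      have h1 := hf2 x hx (by simp [hxr, hxb])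
      simpa using h1
    · rw [hfb]
      omega
    · rw [hfb]
      omega
    · rw [hclb, hpb, hfr]
  · have hd1 := h.dep_par b hbr
    have hd2 := h.dep_par (par b) hpb
    have hd3 : 3 ≤ dep b := by
      by_contra hcon
      have h1 : dep b = 2 := by omega
      exact hbo (by rw [h1]; decide)
    obtain ⟨x2, hx2, hdx2⟩ := exists_dep26 h hcl 2 (dep b - 2) b hb (by omega)
    have hx2r : x2 ≠ r := by
      rintro rfl
      rw [h.root] at hdx2
      omega
    have hd4 := h.dep_par x2 hx2r
    have hpx2r : par x2 ≠ r := by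
      intro h1
      rw [h1, h.root] at hd4
      omega
    set S1 : Finset V := S.filter (fun x => dep x < dep b) with hS1
    have hmS1 : ∀ x, x ∈ S1 ↔ x ∈ S ∧ dep x < dep b := fun x => by rw [hS1, mem_filter]
    have hrS1 : r ∈ S1 := (hmS1 r).2 ⟨hr, by rw [h.root]; omega⟩
    have hclS1 : ∀ x ∈ S1, x ≠ r → par x ∈ S1 := by
      intro x hx hxr
      have h1 := (hmS1 x).1 hx
      have h2 := h.dep_par x hxr
      exact (hmS1 _).2 ⟨hcl x h1.1 hxr, by omega⟩
    have hbS1 : b ∉ S1 := fun h1 => lt_irrefl _ ((hmS1 b).1 h1).2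
    have hpbS1 : par b ∈ S1 := (hmS1 _).2 ⟨hcl b hb hbr, by omega⟩
    have hx2S1 : x2 ∈ S1 := (hmS1 _).2 ⟨hx2, by omega⟩
    have hS1S : S1 ⊆ S := Finset.filter_subset _ _
    obtain ⟨f1, ha1, ha2, ha3⟩ := extend_lab h (S0 := {r}) (S := S1) (by simp)
      (by
        intro x hx hxr
        exact absurd (mem_singleton.1 hx) hxr)
      hclS1 (by
        intro x hx
        rw [mem_singleton.1 hx]
        exact hrS1) (m := m) (by
        have := Finset.card_le_card hS1S
        omega) (fun _ => 0) (fun _ => (F : ℤ)) (by
        refine ⟨?_, ?_⟩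
        · intro x hx y hy _ _
          rw [mem_singleton.1 hx, mem_singleton.1 hy]
        · intro x hx y hy hxr _ _
          exact absurd (mem_singleton.1 hx) hxr)
    have hf1r : f1 r = F := ha1 r (by simp)
    have hf1 : ∀ x ∈ S1, x ≠ r → 0 ≤ f1 x ∧ f1 x < m := by
      intro x hx hxr
      have h1 := ha2 x hx (by simp [hxr])
      simpa using h1
    have hcol1 : ∀ x ∈ S1, x ≠ r → -(m : ℤ) < cl par dep f1 x := by
      intro x hx hxr
      by_cases hp : par x = r
      · have h1 := h.dep_par x hxr
        rw [hp, h.root] at h1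
        have h2 := hf1 x hx hxr
        unfold cl
        rw [if_neg (by rw [h1]; decide), hp, hf1r]
        omega
      · exact (cl_abs26 (hf1 x hx hxr) (hf1 _ (hclS1 x hx hxr) hp)).1
    have hw0 := cl_abs26 (dep := dep) (hf1 x2 hx2S1 hx2r) (hf1 _ (hclS1 x2 hx2S1 hx2r) hpx2r)
    set w0 : ℤ := cl par dep f1 x2 with hw0def
    set f2 : V → ℤ := Function.update f1 b (F - w0) with hf2def
    have hf2b : f2 b = F - w0 := by rw [hf2def, Function.update_self]
    have hf2S1 : ∀ x ∈ S1, f2 x = f1 x := by
      intro x hx
      rw [hf2def, Function.update_of_ne]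
      rintro rfl
      exact hbS1 hx
    have hcl2 : ∀ x ∈ S1, x ≠ r → cl par dep f2 x = cl par dep f1 x := fun x hx hxr =>
      cl_congr26 (hf2S1 x hx) (hf2S1 _ (hclS1 x hx hxr))
    have hcl2b : cl par dep f2 b < -(m : ℤ) := by
      rw [hclb, hf2b, hf2S1 _ hpbS1]
      have h1 := hf1 _ hpbS1 hpb
      omega
    obtain ⟨f, hb1, hb2, hb3⟩ := extend_lab h (S0 := insert b S1) (S := S)
      (mem_insert_of_mem hrS1)
      (by
        intro x hx hxr
        rcases mem_insert.1 hx with rfl | hx
        · exact mem_insert_of_mem hpbS1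
        · exact mem_insert_of_mem (hclS1 x hx hxr))
      hcl (insert_subset hb hS1S) hm (fun _ => 0) f2 (by
        refine ⟨?_, ?_⟩
        · intro x hx y hy hxy hf
          rcases mem_insert.1 hx with rfl | hx <;> rcases mem_insert.1 hy with rfl | hy
          · rfl
          · exfalso
            have hyr : y ≠ r := by
              rintro rfl
              rw [h.root] at hxy
              exact hbo (hxy.2 (by decide))
            rw [hf2b, hf2S1 y hy] at hf
            have h1 := hf1 y hy hyr
            omega
          · exfalso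
            have hxr : x ≠ r := by
              rintro rfl
              rw [h.root] at hxy
              exact hbo (hxy.1 (by decide))
            rw [hf2b, hf2S1 x hx] at hf
            have h1 := hf1 x hx hxr
            omega
          · rw [hf2S1 x hx, hf2S1 y hy] at hf
            exact ha3.inj x hx y hy hxy hf
        · intro x hx y hy hxr hyr hf
          rcases mem_insert.1 hx with rfl | hx <;> rcases mem_insert.1 hy with rfl | hy
          · rfl
          · exfalso
            rw [hcl2 y hy hyr] at hf
            have h1 := hcol1 y hy hyr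
            omega
          · exfalso
            rw [hcl2 x hx hxr] at hf
            have h1 := hcol1 x hx hxr
            omega
          · rw [hcl2 x hx hxr, hcl2 y hy hyr] at hf
            exact ha3.col x hx y hy hxr hyr hf)
    have hfS1 : ∀ x ∈ S1, f x = f1 x := fun x hx =>
      (hb1 x (mem_insert_of_mem hx)).trans (hf2S1 x hx)
    have hfb : f b = F - w0 := (hb1 b (mem_insert_self _ _)).trans hf2b
    refine ⟨f, hb3, (hfS1 r hrS1).trans hf1r, ?_, ?_, ?_, x2, hx2, hx2r, ?_⟩
    · intro x hx hxr hxb
      by_cases hxS1 : x ∈ S1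
      · rw [hfS1 x hxS1]
        exact hf1 x hxS1 hxr
      · have h1 := hb2 x hx (by
          rw [mem_insert, not_or]
          exact ⟨hxb, hxS1⟩)
        simpa using h1
    · rw [hfb]
      omega
    · rw [hfb]
      omega
    · rw [hfb, cl_congr26 (hfS1 x2 hx2S1) (hfS1 _ (hclS1 x2 hx2S1 hx2r)), ← hw0def]
      ring

end Pool.Agent.Helper1.GN
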