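import Pool.Agent.Helper19.GH.Tree
import Pool.Agent.Helper83.GH.Inj

/-!
Project GN (MP_2fbe9b_co): every tree with `n` edges and at most `n / 1000` vertices which are not leaves decomposes `K_{n,n}`. Definitions.

`T` a tree with `n` edges, `B` one of the colour classes (`B` = columns, the complement = rows).
* `RT T r par dep`: `T` as a rooted tree (`par` = parent map, `dep` = depth).
* `cl par dep f x`: the colour (label of the row) - (label of the column) of the edge `x`, `par x`; rows are the vertices of even depth.
* `LabR r par dep K f`: on the set `K` of vertices the labelling `f` is injective on both classes and the colours of the edges below the vertices of `K` are different.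
* `Lab T B K N f`: the same without root, labels in `ZMod N`.
* `lv T a`: the leaves adjacent to `a`.
* `Feas T B n α β`: one can remove `α` leaves outside `B` and `β` leaves in `B` such that the rest (a tree with `N = n - α - β` edges) has a labelling in `ZMod N`
  (so its `N` translates decompose `K_{N,N}`).
-/

set_option autoImplicit false

namespace Pool.Agent.Helper1.GN

open Finset Pool.Agent.Helper19.GH

variable {V : Type} [Fintype V] [DecidableEq V]

/-- `T` is a rooted tree. -/
structure RT (T : SimpleGraph V) (r : V) (par : V → V) (dep : V → ℕ) : Prop where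
  root : dep r = 0
  adj : ∀ x, x ≠ r → T.Adj x (par x)
  dep_par : ∀ x, x ≠ r → dep x = dep (par x) + 1
  edge : ∀ u w, T.Adj u w → (u ≠ r ∧ par u = w) ∨ (w ≠ r ∧ par w = u)

/-- The colour of the edge `x`, `par x`. -/
def cl {M : Type*} [AddGroup M] (par : V → V) (dep : V → ℕ) (f : V → M) (x : V) : M :=
  if Even (dep x) then f x - f (par x) else f (par x) - f x

/-- A labelling of the vertices of `K` with different colours. -/
structure LabR {M : Type*} [AddGroup M] (r : V) (par : V → V) (dep : V → ℕ) (K : Finset V) (f : V → M) : Prop where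
  inj : ∀ x ∈ K, ∀ y ∈ K, (Even (dep x) ↔ Even (dep y)) → f x = f y → x = y
  col : ∀ x ∈ K, ∀ y ∈ K, x ≠ r → y ≠ r → cl par dep f x = cl par dep f y → x = y

/-- The same without root, in `ZMod N`. -/
structure Lab (T : SimpleGraph V) (B K : Finset V) (N : ℕ) (f : V → ZMod N) : Prop where
  rows : ∀ a ∈ K, ∀ a' ∈ K, a ∉ B → a' ∉ B → f a = f a' → a = a'
  cols : ∀ v ∈ K, ∀ v' ∈ K, v ∈ B → v' ∈ B → f v = f v' → v = v'
  diff : ∀ a ∈ K, ∀ v ∈ K, ∀ a' ∈ K, ∀ v' ∈ K, a ∉ B → v ∈ B → a' ∉ B → v' ∈ B → T.Adj a v → T.Adj a' v' →
    f a - f v = f a' - f v' → a = a' ∧ v = v'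

open Classical in
/-- The leaves at `a`. -/
noncomputable def lv (T : SimpleGraph V) (a : V) : Finset V := univ.filter fun x => T.degree x = 1 ∧ T.Adj a x

open Classical in
/-- One can remove `α` leaves outside `B` and `β` leaves in `B` such that the rest has a good labelling. -/
def Feas (T : SimpleGraph V) (B : Finset V) (n α β : ℕ) : Prop :=
  ∃ K : Finset V, (∀ x, x ∉ K → T.degree x = 1) ∧ (univ.filter fun x => x ∉ K ∧ x ∉ B).card = α ∧
    (univ.filter fun x => x ∉ K ∧ x ∈ B).card = β ∧ ∃ f : V → ZMod (n - α - β), Lab T B K (n - α - β) f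

theorem exists_RT (T : SimpleGraph V) (hT : T.IsTree) (r : V) : ∃ (par : V → V) (dep : V → ℕ), RT T r par dep := by
  obtain ⟨par, h1, h2⟩ := exists_par T hT r
  exact ⟨par, fun x => T.dist r x, ⟨by simp, fun x hx => (h1 x hx).1, fun x hx => (h1 x hx).2, h2⟩⟩

end Pool.Agent.Helper1.GN
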