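import Pool.Agent.Helper1.GN.Ext
import Pool.Agent.Helper1.GN.Arc

/-!
BLOCK GN-4 (about 250 lines). The labelling of the diagonal block, case A: the rows of the core are split in two parts `Q`, `Q'`, both with many leaves.

Setting: `S` = core (closed under parents), `K ⊇ S`, the elements of `K \ S` hang on `S`; `s = |S|`, `m ≥ 2 s`. `K` has `N + 1` elements, so `N` edges (the non-root vertices of `K`).
Leaves: `LQ` = odd depth (columns), parent in `Q`, number `k1 ≥ 2m`; `LQ'` = odd depth, parent not in `Q`, `k2 ≥ 2m`; `LA` = even depth (rows), `k3 ≥ 3m`. `N = s - 1 + k1 + k2 + k3` (`K.card = s + k1 + k2 + k3`).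

Proof in words (integer labels).
1. CORE. `extend_lab` with `S0 = {r}`, `f0 = W`, `W x = 2m` if `Even (dep x)` and `x ∈ Q`, `W x = 0` otherwise: labels of `S`: even vertices of `Q` in `[2m, 3m)`, all others in `[0, m)`; (`f0 r = W r` is in the window as well). The colours of the core edges: `D` = image of `S.erase r`, `s - 1` elements (injective).
   For a row `a ∈ Q` and a column `b`: `f a - f b ∈ (m, 3m)`; for a row `a ∉ Q`: `f a - f b ∈ (-m, m)`. So `D ⊆ (-m, 3m)`, `m ∉ D`.
2. ARCS. `d1 = #{z ∈ D : z < m}`, `d2 = #{z ∈ D : m ≤ z}`, `d1 + d2 = s - 1`. `c0 = m - k1 - d1 ≤ -m + 1`, `c1 = m + k2 + d2 ≥ 3m`, `c2 = c0 + N = c1 + k3`. `C1 = [c0, m) \ D` has `k1` elements, `C2 = [m, c1) \ D` has `k2` elements, `C3 = [c1, c2)` has `k3` elements and is disjoint from `D`.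
3. LEAVES. `arc_assign` for `LQ`, `φ = f ∘ par`, `C1`; for `LQ'`, `φ = f ∘ par`, `C2`; for `LA`, `φ = - f ∘ par`, `C3`. Column leaf `x`: label `f (par x) - w x`, colour `w x`. Row leaf `x`: label `f (par x) + w x`, colour `w x`.
   By monotonicity `w x < w y → f(par y) ≤ f (par x)` the labels of two different leaves of `LQ` (`LQ'`) are different, similarly `LA` (`w x < w y → f (par x) ≤ f (par y)`).
4. COLUMNS: core in `[0, m)`; `LQ`: `f(par x) ≥ 2m`, `w x < m`, so label in `[m + 1, 3m - 1 - c0]`; `LQ'`: `f (par x) < m`, `w x ≥ m`, label in `[- c1 + 1, -1]`. All in `[1 - c1, 1 - c1 + N)` because `3m - c0 + c1 - 1 = 3m - 1 + N - k3 ≤ N`.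
   ROWS: core in `[0, 3m)`; `LA`: label in `[c1, m + c2 - 2] ⊆ [3m, N)` (`c0 ≤ -m + 1`). All in `[0, N)`.
   COLOURS: all in `[c0, c0 + N)`, different.
5. Cast to `ZMod N` (`cast_inj`; `cl` commutes with the cast).
-/

set_option autoImplicit false

namespace Pool.Agent.Helper1.GN

open Finset Pool.Agent.Helper19.GH

theorem diagA {V : Type} [Fintype V] [DecidableEq V] {T : SimpleGraph V} {r : V} {par : V → V} {dep : V → ℕ}
    (h : RT T r par dep) {S K : Finset V} (hr : r ∈ S) (hcl : ∀ x ∈ S, x ≠ r → par x ∈ S) (hSK : S ⊆ K)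
    (hpar : ∀ x ∈ K, x ∉ S → par x ∈ S) {N m : ℕ} (hK : K.card = N + 1) (hm : 2 * S.card ≤ m) (Q : Finset V)
    (h1 : 2 * m ≤ ((K \ S).filter fun x => ¬ Even (dep x) ∧ par x ∈ Q).card)
    (h2 : 2 * m ≤ ((K \ S).filter fun x => ¬ Even (dep x) ∧ par x ∉ Q).card)
    (h3 : 3 * m ≤ ((K \ S).filter fun x => Even (dep x)).card) :
    ∃ f : V → ZMod N, LabR r par dep K f := by
  classical
  set W : V → ℤ := fun x => if Even (dep x) ∧ x ∈ Q then 2 * (m : ℤ) else 0 with hW
  have hf0 : LabR r par dep {r} W := by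
    refine ⟨?_, ?_⟩
    · intro x hx y hy _ _
      rw [Finset.mem_singleton] at hx hy
      rw [hx, hy]
    · intro x hx y _ hxr _ _
      rw [Finset.mem_singleton] at hx
      exact absurd hx hxr
  obtain ⟨f, hfr, hfs0, hf⟩ := extend_lab h (S0 := {r}) (S := S) (Finset.mem_singleton_self r)
    (fun x hx hxr => absurd (Finset.mem_singleton.1 hx) hxr) hcl (Finset.singleton_subset_iff.2 hr) hm W W hf0
  set L1 := (K \ S).filter fun x => ¬ Even (dep x) ∧ par x ∈ Q with hL1
  set L2 := (K \ S).filter fun x => ¬ Even (dep x) ∧ par x ∉ Q with hL2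
  set L3 := (K \ S).filter fun x => Even (dep x) with hL3
  set D := (S.erase r).image (cl par dep f) with hD
  have hDc : D.card = S.card - 1 := by
    rw [hD, Finset.card_image_of_injOn, Finset.card_erase_of_mem hr]
    intro x hx y hy hxy
    rw [Finset.mem_coe, Finset.mem_erase] at hx hy
    exact hf.col x hx.2 y hy.2 hx.1 hy.1 hxy
  have hScard : 0 < S.card := Finset.card_pos.2 ⟨r, hr⟩
  have hreven : Even (dep r) := by rw [h.root]; exact Even.zero
  have hmpos : (1 : ℤ) ≤ m := by omega
  -- windows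
  have hfs : ∀ x ∈ S, W x ≤ f x ∧ f x < W x + m := by
    intro x hx
    by_cases hxr : x = r
    · have e := hfr x (by rw [hxr]; exact Finset.mem_singleton_self r)
      omega
    · exact hfs0 x hx (fun h' => hxr (Finset.mem_singleton.1 h'))
  have hodd : ∀ x ∈ S, ¬ Even (dep x) → 0 ≤ f x ∧ f x < m := by
    intro x hx he
    have e := hfs x hx
    have e1 : W x = 0 := by simp only [hW]; rw [if_neg (fun h' => he h'.1)]
    omega
  have hevQ : ∀ x ∈ S, Even (dep x) → x ∈ Q → 2 * (m : ℤ) ≤ f x ∧ f x < 3 * m := by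
    intro x hx he hq
    have e := hfs x hx
    have e1 : W x = 2 * (m : ℤ) := by simp only [hW]; rw [if_pos ⟨he, hq⟩]
    omega
  have hnQ : ∀ x ∈ S, x ∉ Q → 0 ≤ f x ∧ f x < m := by
    intro x hx hq
    have e := hfs x hx
    have e1 : W x = 0 := by simp only [hW]; rw [if_neg (fun h' => hq h'.2)]
    omega
  -- parity of parents
  have hpe : ∀ x, x ≠ r → Even (dep x) → ¬ Even (dep (par x)) := by
    intro x hx he
    rw [h.dep_par x hx] at he
    exact fun h' => absurd he (Nat.even_add_one.not.2 (not_not.2 h'))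
  have hpo : ∀ x, x ≠ r → ¬ Even (dep x) → Even (dep (par x)) := by
    intro x hx he
    rw [h.dep_par x hx] at he
    by_contra h'
    exact he (Nat.even_add_one.2 h')
  -- colours of the core
  have hDb : ∀ z ∈ D, (-(m : ℤ) < z ∧ z < m) ∨ ((m : ℤ) < z ∧ z < 3 * m) := by
    intro z hz
    rw [hD, Finset.mem_image] at hz
    obtain ⟨x, hx, rfl⟩ := hz
    rw [Finset.mem_erase] at hx
    obtain ⟨hxr, hxS⟩ := hx
    have hpS := hcl x hxS hxr
    unfold cl
    by_cases he : Even (dep x)
    · rw [if_pos he]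
      have e1 := hodd (par x) hpS (hpe x hxr he)
      by_cases hq : x ∈ Q
      · have e2 := hevQ x hxS he hq
        right
        omega
      · have e2 := hnQ x hxS hq
        left
        omega
    · rw [if_neg he]
      have e1 := hodd x hxS he
      by_cases hq : par x ∈ Q
      · have e2 := hevQ (par x) hpS (hpo x hxr he) hq
        right
        omega
      · have e2 := hnQ (par x) hpS hq
        left
        omega
  set d1 := (D.filter fun z => z < (m : ℤ)).card with hd1
  set d2 := (D.filter fun z => (m : ℤ) ≤ z).card with hd2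
  have hd12 : d1 + d2 = S.card - 1 := by
    rw [← hDc, hd1, hd2, ← Finset.card_union_of_disjoint]
    · congr 1
      ext z
      rw [Finset.mem_union, Finset.mem_filter, Finset.mem_filter]
      constructor
      · rintro (hz | hz)
        · exact hz.1
        · exact hz.1
      · intro hz
        rcases lt_or_ge z (m : ℤ) with h' | h'
        · exact Or.inl ⟨hz, h'⟩
        · exact Or.inr ⟨hz, h'⟩
    · rw [Finset.disjoint_left]
      intro z hz hz'
      rw [Finset.mem_filter] at hz hz'
      have := hz.2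
      have := hz'.2
      omega
  -- the count
  have hKc : K.card = S.card + (L1.card + L2.card + L3.card) := by
    have e1 := Finset.card_sdiff_add_card_eq_card hSK
    have e2 : L3.card + ((K \ S).filter fun x => ¬ Even (dep x)).card = (K \ S).card := by
      rw [hL3]
      convert! Finset.card_filter_add_card_filter_not (s := K \ S) (fun x => Even (dep x))
    have e3 : ((K \ S).filter fun x => ¬ Even (dep x)).card = L1.card + L2.card := by
      rw [hL1, hL2, ← Finset.card_union_of_disjoint]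
      · congr 1
        ext x
        rw [Finset.mem_union, Finset.mem_filter, Finset.mem_filter, Finset.mem_filter]
        constructor
        · rintro ⟨hx1, hx2⟩
          by_cases hp : par x ∈ Q
          · exact Or.inl ⟨hx1, hx2, hp⟩
          · exact Or.inr ⟨hx1, hx2, hp⟩
        · rintro (⟨hx1, hx2, -⟩ | ⟨hx1, hx2, -⟩)
          · exact ⟨hx1, hx2⟩
          · exact ⟨hx1, hx2⟩
      · rw [Finset.disjoint_left]
        intro x hx hx'
        rw [Finset.mem_filter] at hx hx'
        exact hx'.2.2 hx.2.2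
    omega
  set c0 : ℤ := m - L1.card - d1 with hc0
  set c1 : ℤ := m + L2.card + d2 with hc1
  set c2 : ℤ := c1 + L3.card with hc2
  have hc02 : c2 = c0 + N := by
    rw [hc2, hc1, hc0]
    omega
  have hc0m : c0 ≤ -(m : ℤ) := by
    rw [hc0]
    omega
  have hc1m : (3 * m : ℤ) ≤ c1 := by
    rw [hc1]
    omega
  have hc23 : c1 + 3 * m ≤ c2 := by
    rw [hc2]
    omega
  -- the arcs
  have hC1 : (Ico c0 (m : ℤ) \ D).card = L1.card := by
    have e1 := card_arc D (c := c0) (d := (m : ℤ)) (by omega)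
    have e2 : (D.filter fun z => c0 ≤ z ∧ z < (m : ℤ)) = D.filter fun z => z < (m : ℤ) := by
      refine Finset.filter_congr fun z hz => ?_
      constructor
      · exact fun h' => h'.2
      · intro h'
        refine ⟨?_, h'⟩
        rcases hDb z hz with h'' | h''
        · omega
        · omega
    rw [e2, ← hd1] at e1
    omega
  have hC2 : (Ico (m : ℤ) c1 \ D).card = L2.card := by
    have e1 := card_arc D (c := (m : ℤ)) (d := c1) (by omega)
    have e2 : (D.filter fun z => (m : ℤ) ≤ z ∧ z < c1) = D.filter fun z => (m : ℤ) ≤ z := by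
      refine Finset.filter_congr fun z hz => ?_
      constructor
      · exact fun h' => h'.1
      · intro h'
        refine ⟨h', ?_⟩
        rcases hDb z hz with h'' | h''
        · omega
        · omega
    rw [e2, ← hd2] at e1
    omega
  have hC3 : (Ico c1 c2).card = L3.card := by
    rw [Int.card_Ico]
    omega
  obtain ⟨w1, hw1, hw1i, hw1m⟩ := arc_assign L1 (fun x => f (par x)) _ hC1
  obtain ⟨w2, hw2, hw2i, hw2m⟩ := arc_assign L2 (fun x => f (par x)) _ hC2
  obtain ⟨w3, hw3, hw3i, hw3m⟩ := arc_assign L3 (fun x => - f (par x)) _ hC3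
  have hw1' : ∀ x ∈ L1, c0 ≤ w1 x ∧ w1 x < m ∧ w1 x ∉ D := by
    intro x hx
    have := hw1 x hx
    rw [Finset.mem_sdiff, Finset.mem_Ico] at this
    exact ⟨this.1.1, this.1.2, this.2⟩
  have hw2' : ∀ x ∈ L2, (m : ℤ) ≤ w2 x ∧ w2 x < c1 ∧ w2 x ∉ D := by
    intro x hx
    have := hw2 x hx
    rw [Finset.mem_sdiff, Finset.mem_Ico] at this
    exact ⟨this.1.1, this.1.2, this.2⟩
  have hw3' : ∀ x ∈ L3, c1 ≤ w3 x ∧ w3 x < c2 ∧ w3 x ∉ D := by
    intro x hx
    have := hw3 x hx
    rw [Finset.mem_Ico] at this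
    refine ⟨this.1, this.2, fun hz => ?_⟩
    rcases hDb _ hz with h'' | h''
    · omega
    · omega
  -- the classes
  have hcase : ∀ x ∈ K, x ∈ S ∨ x ∈ L1 ∨ x ∈ L2 ∨ x ∈ L3 := by
    intro x hx
    by_cases hxS : x ∈ S
    · exact Or.inl hxS
    right
    have hxKS : x ∈ K \ S := Finset.mem_sdiff.2 ⟨hx, hxS⟩
    by_cases he : Even (dep x)
    · exact Or.inr (Or.inr (Finset.mem_filter.2 ⟨hxKS, he⟩))
    · by_cases hp : par x ∈ Q
      · exact Or.inl (Finset.mem_filter.2 ⟨hxKS, he, hp⟩)
      · exact Or.inr (Or.inl (Finset.mem_filter.2 ⟨hxKS, he, hp⟩))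
  have hm1 : ∀ x ∈ L1, x ∈ K ∧ x ∉ S ∧ ¬ Even (dep x) ∧ par x ∈ Q ∧ x ≠ r := by
    intro x hx
    rw [hL1, Finset.mem_filter, Finset.mem_sdiff] at hx
    exact ⟨hx.1.1, hx.1.2, hx.2.1, hx.2.2, fun e => hx.1.2 (e ▸ hr)⟩
  have hm2 : ∀ x ∈ L2, x ∈ K ∧ x ∉ S ∧ ¬ Even (dep x) ∧ par x ∉ Q ∧ x ≠ r := by
    intro x hx
    rw [hL2, Finset.mem_filter, Finset.mem_sdiff] at hx
    exact ⟨hx.1.1, hx.1.2, hx.2.1, hx.2.2, fun e => hx.1.2 (e ▸ hr)⟩
  have hm3 : ∀ x ∈ L3, x ∈ K ∧ x ∉ S ∧ Even (dep x) ∧ x ≠ r := by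
    intro x hx
    rw [hL3, Finset.mem_filter, Finset.mem_sdiff] at hx
    exact ⟨hx.1.1, hx.1.2, hx.2, fun e => hx.1.2 (e ▸ hr)⟩
  have hp1 : ∀ x ∈ L1, 2 * (m : ℤ) ≤ f (par x) ∧ f (par x) < 3 * m := by
    intro x hx
    obtain ⟨hxK, hxS, he, hp, hxr⟩ := hm1 x hx
    exact hevQ (par x) (hpar x hxK hxS) (hpo x hxr he) hp
  have hp2 : ∀ x ∈ L2, 0 ≤ f (par x) ∧ f (par x) < m := by
    intro x hx
    obtain ⟨hxK, hxS, he, hp, hxr⟩ := hm2 x hx
    exact hnQ (par x) (hpar x hxK hxS) hp
  have hp3 : ∀ x ∈ L3, 0 ≤ f (par x) ∧ f (par x) < m := by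
    intro x hx
    obtain ⟨hxK, hxS, he, hxr⟩ := hm3 x hx
    exact hodd (par x) (hpar x hxK hxS) (hpe x hxr he)
  -- the labelling
  set g : V → ℤ := fun x => if x ∈ S then f x else if Even (dep x) then f (par x) + w3 x else
    (if par x ∈ Q then f (par x) - w1 x else f (par x) - w2 x) with hg
  have hgS : ∀ x ∈ S, g x = f x := fun x hx => by simp only [hg]; rw [if_pos hx]
  have hg1 : ∀ x ∈ L1, g x = f (par x) - w1 x := fun x hx => by
    obtain ⟨-, e1, e2, e3, -⟩ := hm1 x hx
    simp only [hg]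
    rw [if_neg e1, if_neg e2, if_pos e3]
  have hg2 : ∀ x ∈ L2, g x = f (par x) - w2 x := fun x hx => by
    obtain ⟨-, e1, e2, e3, -⟩ := hm2 x hx
    simp only [hg]
    rw [if_neg e1, if_neg e2, if_neg e3]
  have hg3 : ∀ x ∈ L3, g x = f (par x) + w3 x := fun x hx => by
    obtain ⟨-, e1, e2, -⟩ := hm3 x hx
    simp only [hg]
    rw [if_neg e1, if_pos e2]
  -- colours
  have hcS : ∀ x ∈ S, x ≠ r → cl par dep g x = cl par dep f x := by
    intro x hx hxr
    unfold cl
    rw [hgS x hx, hgS _ (hcl x hx hxr)]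
  have hc1' : ∀ x ∈ L1, cl par dep g x = w1 x := by
    intro x hx
    obtain ⟨e0, e1, e2, e3, -⟩ := hm1 x hx
    unfold cl
    rw [if_neg e2, hgS _ (hpar x e0 e1), hg1 x hx]
    ring
  have hc2' : ∀ x ∈ L2, cl par dep g x = w2 x := by
    intro x hx
    obtain ⟨e0, e1, e2, e3, -⟩ := hm2 x hx
    unfold cl
    rw [if_neg e2, hgS _ (hpar x e0 e1), hg2 x hx]
    ring
  have hc3' : ∀ x ∈ L3, cl par dep g x = w3 x := by
    intro x hx
    obtain ⟨e0, e1, e2, -⟩ := hm3 x hx
    unfold cl
    rw [if_pos e2, hgS _ (hpar x e0 e1), hg3 x hx]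
    ring
  have hcD : ∀ x ∈ S, x ≠ r → cl par dep g x ∈ D := by
    intro x hx hxr
    rw [hcS x hx hxr, hD, Finset.mem_image]
    exact ⟨x, Finset.mem_erase.2 ⟨hxr, hx⟩, rfl⟩
  have hcrange : ∀ x ∈ K, x ≠ r → c0 ≤ cl par dep g x ∧ cl par dep g x < c0 + N := by
    intro x hx hxr
    rw [← hc02]
    rcases hcase x hx with hx' | hx' | hx' | hx'
    · rcases hDb _ (hcD x hx' hxr) with h'' | h''
      · omega
      · omega
    · rw [hc1' x hx']
      have := hw1' x hx'
      omega
    · rw [hc2' x hx']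
      have := hw2' x hx'
      omega
    · rw [hc3' x hx']
      have := hw3' x hx'
      omega
  have hcinj : ∀ x ∈ K, ∀ y ∈ K, x ≠ r → y ≠ r → cl par dep g x = cl par dep g y → x = y := by
    have key : ∀ x ∈ S, x ≠ r → ∀ y ∈ K, y ∉ S → cl par dep g x ≠ cl par dep g y := by
      intro x hx hxr y hy hyS e
      have hD' := hcD x hx hxr
      rw [e] at hD'
      rcases hcase y hy with hy' | hy' | hy' | hy'
      · exact hyS hy'
      · rw [hc1' y hy'] at hD'
        exact (hw1' y hy').2.2 hD'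
      · rw [hc2' y hy'] at hD'
        exact (hw2' y hy').2.2 hD'
      · rw [hc3' y hy'] at hD'
        exact (hw3' y hy').2.2 hD'
    intro x hx y hy hxr hyr e
    rcases hcase x hx with hx' | hx' | hx' | hx' <;> rcases hcase y hy with hy' | hy' | hy' | hy'
    · rw [hcS x hx' hxr, hcS y hy' hyr] at e
      exact hf.col x hx' y hy' hxr hyr e
    · exact absurd e (key x hx' hxr y hy (hm1 y hy').2.1)
    · exact absurd e (key x hx' hxr y hy (hm2 y hy').2.1)
    · exact absurd e (key x hx' hxr y hy (hm3 y hy').2.1)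
    · exact absurd e.symm (key y hy' hyr x hx (hm1 x hx').2.1)
    · rw [hc1' x hx', hc1' y hy'] at e
      exact hw1i x hx' y hy' e
    · rw [hc1' x hx', hc2' y hy'] at e
      have e1 := hw1' x hx'
      have e2 := hw2' y hy'
      omega
    · rw [hc1' x hx', hc3' y hy'] at e
      have e1 := hw1' x hx'
      have e2 := hw3' y hy'
      omega
    · exact absurd e.symm (key y hy' hyr x hx (hm2 x hx').2.1)
    · rw [hc2' x hx', hc1' y hy'] at e
      have e1 := hw2' x hx'
      have e2 := hw1' y hy'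
      omega
    · rw [hc2' x hx', hc2' y hy'] at e
      exact hw2i x hx' y hy' e
    · rw [hc2' x hx', hc3' y hy'] at e
      have e1 := hw2' x hx'
      have e2 := hw3' y hy'
      omega
    · exact absurd e.symm (key y hy' hyr x hx (hm3 x hx').2.1)
    · rw [hc3' x hx', hc1' y hy'] at e
      have e1 := hw3' x hx'
      have e2 := hw1' y hy'
      omega
    · rw [hc3' x hx', hc2' y hy'] at e
      have e1 := hw3' x hx'
      have e2 := hw2' y hy'
      omega
    · rw [hc3' x hx', hc3' y hy'] at e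
      exact hw3i x hx' y hy' e
  -- labels
  have hrow : ∀ x ∈ K, Even (dep x) → 0 ≤ g x ∧ g x < 0 + (N : ℤ) := by
    intro x hx he
    rcases hcase x hx with hx' | hx' | hx' | hx'
    · rw [hgS x hx']
      by_cases hq : x ∈ Q
      · have := hevQ x hx' he hq
        omega
      · have := hnQ x hx' hq
        omega
    · exact absurd he (hm1 x hx').2.2.1
    · exact absurd he (hm2 x hx').2.2.1
    · rw [hg3 x hx']
      have := hw3' x hx'
      have := hp3 x hx'
      omega
  have hcolr : ∀ x ∈ K, ¬ Even (dep x) → 1 - c1 ≤ g x ∧ g x < 1 - c1 + (N : ℤ) := by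
    intro x hx he
    rcases hcase x hx with hx' | hx' | hx' | hx'
    · rw [hgS x hx']
      have := hodd x hx' he
      omega
    · rw [hg1 x hx']
      have := hw1' x hx'
      have := hp1 x hx'
      omega
    · rw [hg2 x hx']
      have := hw2' x hx'
      have := hp2 x hx'
      omega
    · exact absurd (hm3 x hx').2.2.1 he
  have hginj : ∀ x ∈ K, ∀ y ∈ K, (Even (dep x) ↔ Even (dep y)) → g x = g y → x = y := by
    -- core and leaf
    have key : ∀ x ∈ S, ∀ y ∈ K, y ∉ S → (Even (dep x) ↔ Even (dep y)) → g x ≠ g y := by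
      intro x hx y hy hyS hev e
      rw [hgS x hx] at e
      rcases hcase y hy with hy' | hy' | hy' | hy'
      · exact hyS hy'
      · have hxo : ¬ Even (dep x) := fun h' => (hm1 y hy').2.2.1 (hev.1 h')
        rw [hg1 y hy'] at e
        have e1 := hodd x hx hxo
        have e2 := hw1' y hy'
        have e3 := hp1 y hy'
        omega
      · have hxo : ¬ Even (dep x) := fun h' => (hm2 y hy').2.2.1 (hev.1 h')
        rw [hg2 y hy'] at e
        have e1 := hodd x hx hxo
        have e2 := hw2' y hy'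
        have e3 := hp2 y hy'
        omega
      · have hxe : Even (dep x) := hev.2 (hm3 y hy').2.2.1
        rw [hg3 y hy'] at e
        have e2 := hw3' y hy'
        have e3 := hp3 y hy'
        by_cases hq : x ∈ Q
        · have := hevQ x hx hxe hq
          omega
        · have := hnQ x hx hq
          omega
    intro x hx y hy hev e
    rcases hcase x hx with hx' | hx' | hx' | hx' <;> rcases hcase y hy with hy' | hy' | hy' | hy'
    · rw [hgS x hx', hgS y hy'] at e
      exact hf.inj x hx' y hy' hev e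
    · exact absurd e (key x hx' y hy (hm1 y hy').2.1 hev)
    · exact absurd e (key x hx' y hy (hm2 y hy').2.1 hev)
    · exact absurd e (key x hx' y hy (hm3 y hy').2.1 hev)
    · exact absurd e.symm (key y hy' x hx (hm1 x hx').2.1 hev.symm)
    · rw [hg1 x hx', hg1 y hy'] at e
      apply hw1i x hx' y hy'
      rcases lt_trichotomy (w1 x) (w1 y) with hlt | heq | hlt
      · have := hw1m x hx' y hy' hlt
        omega
      · exact heq
      · have := hw1m y hy' x hx' hlt
        omega
    · rw [hg1 x hx', hg2 y hy'] at e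
      have e1 := hw1' x hx'
      have e2 := hw2' y hy'
      have e3 := hp1 x hx'
      have e4 := hp2 y hy'
      omega
    · exact absurd (hev.2 (hm3 y hy').2.2.1) (hm1 x hx').2.2.1
    · exact absurd e.symm (key y hy' x hx (hm2 x hx').2.1 hev.symm)
    · rw [hg2 x hx', hg1 y hy'] at e
      have e1 := hw2' x hx'
      have e2 := hw1' y hy'
      have e3 := hp2 x hx'
      have e4 := hp1 y hy'
      omega
    · rw [hg2 x hx', hg2 y hy'] at e
      apply hw2i x hx' y hy'
      rcases lt_trichotomy (w2 x) (w2 y) with hlt | heq | hlt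
      · have := hw2m x hx' y hy' hlt
        omega
      · exact heq
      · have := hw2m y hy' x hx' hlt
        omega
    · exact absurd (hev.2 (hm3 y hy').2.2.1) (hm2 x hx').2.2.1
    · exact absurd e.symm (key y hy' x hx (hm3 x hx').2.1 hev.symm)
    · exact absurd (hev.1 (hm3 x hx').2.2.1) (hm1 y hy').2.2.1
    · exact absurd (hev.1 (hm3 x hx').2.2.1) (hm2 y hy').2.2.1
    · rw [hg3 x hx', hg3 y hy'] at e
      apply hw3i x hx' y hy'
      rcases lt_trichotomy (w3 x) (w3 y) with hlt | heq | hlt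
      · have := hw3m x hx' y hy' hlt
        omega
      · exact heq
      · have := hw3m y hy' x hx' hlt
        omega
  -- cast
  have hclc : ∀ x, cl par dep (fun y => ((g y : ℤ) : ZMod N)) x = ((cl par dep g x : ℤ) : ZMod N) := by
    intro x
    unfold cl
    split_ifs
    · push_cast
      rfl
    · push_cast
      rfl
  refine ⟨fun x => ((g x : ℤ) : ZMod N), ⟨?_, ?_⟩⟩
  · intro x hx y hy hev e
    by_cases he : Even (dep x)
    · have e1 := hrow x hx he
      have e2 := hrow y hy (hev.1 he)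
      exact hginj x hx y hy hev (cast_inj e1.1 e1.2 e2.1 e2.2 e)
    · have e1 := hcolr x hx he
      have e2 := hcolr y hy (fun h' => he (hev.2 h'))
      exact hginj x hx y hy hev (cast_inj e1.1 e1.2 e2.1 e2.2 e)
  · intro x hx y hy hxr hyr e
    rw [hclc, hclc] at e
    have e1 := hcrange x hx hxr
    have e2 := hcrange y hy hyr
    exact hcinj x hx y hy hxr hyr (cast_inj e1.1 e1.2 e2.1 e2.2 e)

end Pool.Agent.Helper1.GN
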