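import Pool.Agent.Helper1.GN.CoreB
import Pool.Agent.Helper1.GN.Arc

/-!
BLOCK GN-6 (about 250 lines). The labelling of the diagonal block, case B: all column leaves of `K` hang on the root `r` (a row), almost all row leaves on the column `b`.

Setting as in `DiagA`. `k1 = #` column leaves (odd depth, parent `r`) `≥ F + 2m`; `k2 = #` row leaves with parent `≠ b`, `3m + k2 ≤ F`; `k3 = #` row leaves with parent `b`, `k3 ≥ F + 1`. `N = s - 1 + k1 + k2 + k3`.

Proof in words (integer labels). `f` on the core from `coreB`: `f r = F`, `f b ∈ (F - m, F + m)`, all others in `[0, m)`, and `F - f b ∈ D` (`D` = the `s - 1` colours of the core edges).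
COLOURS of the core: an edge `a v`, `a` row, `v` column: `a = r, v = b`: `F - f b ∈ (-m, m)`; `a = r, v ≠ b`: in `(F - m, F]`; `a ≠ r, v = b`: in `(-F - m, -F + 2m)`; else in `(-m, m)`. So `D ⊆ (-F - m, m) ∪ (F - m, F]`.
ARCS. `d1 = #{z ∈ D : z < m}`, `d2 = #{z ∈ D : F - m < z}`, `d1 + d2 = s - 1`. `c0 = m - k1 - d1 ≤ -F - m`, `c1 = m + k2 ≤ F - 2m`, `c2 = c0 + N = m + k2 + k3 + d2 ≥ F + 1`.
`C1 = [c0, m) \ D` has `k1` elements, `C2 = [m, c1)` has `k2` elements and is disjoint from `D`, `C3 = [c1, c2) \ D` has `k3` elements.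
LEAVES (`arc_assign`): column leaves (all at `r`): colours `C1`, label `F - w x`. Row leaves with parent `≠ b`: colours `C2`, `φ = - f ∘ par`, label `f (par x) + w x`; row leaves at `b`: colours `C3`, label `f b + w x`.
COLUMNS: core: `[0, m)` and `f b`; leaves: `F - w x`, different, in `(F - m, F - c0]`, so `≥ m`, and `F - w x = f b` would give `w x = F - f b ∈ D`. All in `[0, F - c0]`, and `F - c0 + 1 ≤ N` (`c2 ≥ F + 1`). (`f b < F + m ≤ F - c0`.)
ROWS: core: `[0, m)` and `F`; leaves not at `b`: in `[m, m + c1) ⊆ [m, F)` (`2m + k2 ≤ F - m`; parents `≠ b` are columns with labels in `[0, m)`), different by monotonicity; leaves at `b`: `f b + w x > F - m + c1 ≥ F`, different, `≤ F + m - 1 + c2 - 1 ≤ N - 1` (`c0 ≤ -F - m + 1`). All in `[0, N)`.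
COLOURS: all in `[c0, c0 + N)`, different. Cast to `ZMod N` (`cast_inj`).
-/

set_option autoImplicit false

namespace Pool.Agent.Helper1.GN

open Finset Pool.Agent.Helper19.GH

theorem diagB {V : Type} [Fintype V] [DecidableEq V] {T : SimpleGraph V} {r : V} {par : V → V} {dep : V → ℕ}
    (h : RT T r par dep) {S K : Finset V} (hr : r ∈ S) (hcl : ∀ x ∈ S, x ≠ r → par x ∈ S) (hSK : S ⊆ K)
    (hpar : ∀ x ∈ K, x ∉ S → par x ∈ S) {N m F : ℕ} (hK : K.card = N + 1) (hm : 2 * S.card ≤ m)
    {b : V} (hb : b ∈ S) (hbo : ¬ Even (dep b)) (hB : ∀ x ∈ K, x ∉ S → ¬ Even (dep x) → par x = r)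
    (h1 : F + 2 * m ≤ ((K \ S).filter fun x => ¬ Even (dep x)).card)
    (h2 : 3 * m + ((K \ S).filter fun x => Even (dep x) ∧ par x ≠ b).card ≤ F)
    (h3 : F + 1 ≤ ((K \ S).filter fun x => Even (dep x) ∧ par x = b).card) :
    ∃ f : V → ZMod N, LabR r par dep K f := by
  classical
  obtain ⟨f, hf, hfr, hfs, hfb1, hfb2, x0, hx0, hx0r, hx0c⟩ :=
    coreB h hr hcl hm (F := F) (by omega) hb hbo
  set L1 := (K \ S).filter fun x => ¬ Even (dep x) with hL1
  set L2 := (K \ S).filter fun x => Even (dep x) ∧ par x ≠ b with hL2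
  set L3 := (K \ S).filter fun x => Even (dep x) ∧ par x = b with hL3
  set D := (S.erase r).image (cl par dep f) with hD
  have hDc : D.card = S.card - 1 := by
    rw [hD, Finset.card_image_of_injOn, Finset.card_erase_of_mem hr]
    intro x hx y hy hxy
    rw [Finset.mem_coe, Finset.mem_erase] at hx hy
    exact hf.col x hx.2 y hy.2 hx.1 hy.1 hxy
  have hScard : 0 < S.card := Finset.card_pos.2 ⟨r, hr⟩
  have hreven : Even (dep r) := by rw [h.root]; exact Even.zero
  have hbr : b ≠ r := fun e => hbo (e ▸ hreven)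
  have hmpos : (1 : ℤ) ≤ m := by omega
  have hF3 : (3 * m : ℤ) ≤ F := by omega
  -- parity of parents
  have hpe : ∀ x, x ≠ r → Even (dep x) → ¬ Even (dep (par x)) := by
    intro x hx he
    rw [h.dep_par x hx] at he
    exact fun h' => absurd he (Nat.even_add_one.not.2 (not_not.2 h'))
  have hpo : ∀ x, x ≠ r → ¬ Even (dep x) → Even (dep (par x)) := by
    intro x hx he
    rw [h.dep_par x hx] at he
    by_contra h'
    exact he (Nat.even_add_one.2 h')
  -- colours of the core
  have hDb : ∀ z ∈ D, (-(F : ℤ) - m < z ∧ z < m) ∨ ((F : ℤ) - m < z ∧ z ≤ F) := by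
    intro z hz
    rw [hD, Finset.mem_image] at hz
    obtain ⟨x, hx, rfl⟩ := hz
    rw [Finset.mem_erase] at hx
    obtain ⟨hxr, hxS⟩ := hx
    have hpS := hcl x hxS hxr
    unfold cl
    by_cases he : Even (dep x)
    · rw [if_pos he]
      have hxb : x ≠ b := fun e => hbo (e ▸ he)
      have e1 := hfs x hxS hxr hxb
      by_cases hpb : par x = b
      · rw [hpb]
        left
        omega
      · have hpr : par x ≠ r := fun e => hpe x hxr he (e ▸ hreven)
        have e2 := hfs (par x) hpS hpr hpb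
        left
        omega
    · rw [if_neg he]
      have hpb : par x ≠ b := fun e => hbo (e ▸ hpo x hxr he)
      by_cases hpr : par x = r
      · rw [hpr, hfr]
        by_cases hxb : x = b
        · rw [hxb]
          left
          omega
        · have e1 := hfs x hxS hxr hxb
          right
          omega
      · have e2 := hfs (par x) hpS hpr hpb
        by_cases hxb : x = b
        · rw [hxb]
          rw [hxb] at e2
          left
          omega
        · have e1 := hfs x hxS hxr hxb
          left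
          omega
  have hFD : (F : ℤ) - f b ∈ D := by
    rw [hD, Finset.mem_image]
    exact ⟨x0, Finset.mem_erase.2 ⟨hx0r, hx0⟩, hx0c⟩
  set d1 := (D.filter fun z => z < (m : ℤ)).card with hd1
  set d2 := (D.filter fun z => (F : ℤ) - m < z).card with hd2
  have hd12 : d1 + d2 = S.card - 1 := by
    rw [← hDc, hd1, hd2, ← Finset.card_union_of_disjoint]
    · congr 1
      ext z
      rw [Finset.mem_union, Finset.mem_filter, Finset.mem_filter]
      constructor
      · rintro (hz | hz)
        · exact hz.1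
        · exact hz.1
      · intro hz
        rcases hDb z hz with h' | h'
        · exact Or.inl ⟨hz, h'.2⟩
        · exact Or.inr ⟨hz, h'.1⟩
    · rw [Finset.disjoint_left]
      intro z hz hz'
      rw [Finset.mem_filter] at hz hz'
      have := hz.2
      have := hz'.2
      omega
  -- the count
  have hKc : K.card = S.card + (L1.card + (L2.card + L3.card)) := by
    have e1 := Finset.card_sdiff_add_card_eq_card hSK
    have e2 : L1.card + ((K \ S).filter fun x => ¬ ¬ Even (dep x)).card = (K \ S).card := by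
      rw [hL1]
      convert! Finset.card_filter_add_card_filter_not (s := K \ S) (fun x => ¬ Even (dep x))
    have e3 : ((K \ S).filter fun x => ¬ ¬ Even (dep x)).card = L2.card + L3.card := by
      rw [hL2, hL3, ← Finset.card_union_of_disjoint]
      · congr 1
        ext x
        rw [Finset.mem_union, Finset.mem_filter, Finset.mem_filter, Finset.mem_filter]
        constructor
        · rintro ⟨hx1, hx2⟩
          rw [not_not] at hx2
          by_cases hp : par x = b
          · exact Or.inr ⟨hx1, hx2, hp⟩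
          · exact Or.inl ⟨hx1, hx2, hp⟩
        · rintro (⟨hx1, hx2, -⟩ | ⟨hx1, hx2, -⟩)
          · exact ⟨hx1, not_not.2 hx2⟩
          · exact ⟨hx1, not_not.2 hx2⟩
      · rw [Finset.disjoint_left]
        intro x hx hx'
        rw [Finset.mem_filter] at hx hx'
        exact hx.2.2 hx'.2.2
    omega
  set c0 : ℤ := m - L1.card - d1 with hc0
  set c1 : ℤ := m + L2.card with hc1
  set c2 : ℤ := c1 + L3.card + d2 with hc2
  have hc02 : c2 = c0 + N := by
    rw [hc2, hc1, hc0]
    omega
  have hc0F : c0 ≤ -(F : ℤ) - m := by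
    rw [hc0]
    omega
  have hc1F : c1 ≤ (F : ℤ) - 2 * m := by
    rw [hc1]
    omega
  have hc1m : (m : ℤ) ≤ c1 := by
    rw [hc1]
    omega
  have hc2F : (F : ℤ) + 1 ≤ c2 := by
    rw [hc2]
    omega
  -- the arcs
  have hC1 : (Ico c0 (m : ℤ) \ D).card = L1.card := by
    have e1 := card_arc D (c := c0) (d := (m : ℤ)) (by omega)
    have e2 : (D.filter fun z => c0 ≤ z ∧ z < (m : ℤ)) = D.filter fun z => z < (m : ℤ) := by
      refine Finset.filter_congr fun z hz => ?_
      constructor
      · exact fun h' => h'.2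
      · intro h'
        refine ⟨?_, h'⟩
        rcases hDb z hz with h'' | h''
        · omega
        · omega
    rw [e2, ← hd1] at e1
    omega
  have hC2 : (Ico (m : ℤ) c1).card = L2.card := by
    rw [Int.card_Ico]
    omega
  have hC3 : (Ico c1 c2 \ D).card = L3.card := by
    have e1 := card_arc D (c := c1) (d := c2) (by omega)
    have e2 : (D.filter fun z => c1 ≤ z ∧ z < c2) = D.filter fun z => (F : ℤ) - m < z := by
      refine Finset.filter_congr fun z hz => ?_
      constructor
      · intro h'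
        rcases hDb z hz with h'' | h''
        · omega
        · omega
      · intro h'
        rcases hDb z hz with h'' | h''
        · omega
        · omega
    rw [e2, ← hd2] at e1
    omega
  obtain ⟨w1, hw1, hw1i, -⟩ := arc_assign L1 (fun _ => 0) _ hC1
  obtain ⟨w2, hw2, hw2i, hw2m⟩ := arc_assign L2 (fun x => - f (par x)) _ hC2
  obtain ⟨w3, hw3, hw3i, -⟩ := arc_assign L3 (fun _ => 0) _ hC3
  have hw1' : ∀ x ∈ L1, c0 ≤ w1 x ∧ w1 x < m ∧ w1 x ∉ D := by
    intro x hx
    have := hw1 x hx
    rw [Finset.mem_sdiff, Finset.mem_Ico] at this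
    exact ⟨this.1.1, this.1.2, this.2⟩
  have hw2' : ∀ x ∈ L2, (m : ℤ) ≤ w2 x ∧ w2 x < c1 ∧ w2 x ∉ D := by
    intro x hx
    have := hw2 x hx
    rw [Finset.mem_Ico] at this
    refine ⟨this.1, this.2, fun hz => ?_⟩
    rcases hDb _ hz with h'' | h''
    · omega
    · omega
  have hw3' : ∀ x ∈ L3, c1 ≤ w3 x ∧ w3 x < c2 ∧ w3 x ∉ D := by
    intro x hx
    have := hw3 x hx
    rw [Finset.mem_sdiff, Finset.mem_Ico] at this
    exact ⟨this.1.1, this.1.2, this.2⟩
  -- the classes
  have hcase : ∀ x ∈ K, x ∈ S ∨ x ∈ L1 ∨ x ∈ L2 ∨ x ∈ L3 := by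
    intro x hx
    by_cases hxS : x ∈ S
    · exact Or.inl hxS
    right
    have hxKS : x ∈ K \ S := Finset.mem_sdiff.2 ⟨hx, hxS⟩
    by_cases he : Even (dep x)
    · by_cases hp : par x = b
      · exact Or.inr (Or.inr (Finset.mem_filter.2 ⟨hxKS, he, hp⟩))
      · exact Or.inr (Or.inl (Finset.mem_filter.2 ⟨hxKS, he, hp⟩))
    · exact Or.inl (Finset.mem_filter.2 ⟨hxKS, he⟩)
  have hm1 : ∀ x ∈ L1, x ∈ K ∧ x ∉ S ∧ ¬ Even (dep x) ∧ par x = r := by
    intro x hx
    rw [hL1, Finset.mem_filter, Finset.mem_sdiff] at hx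
    exact ⟨hx.1.1, hx.1.2, hx.2, hB x hx.1.1 hx.1.2 hx.2⟩
  have hm2 : ∀ x ∈ L2, x ∈ K ∧ x ∉ S ∧ Even (dep x) ∧ par x ≠ b ∧ x ≠ r := by
    intro x hx
    rw [hL2, Finset.mem_filter, Finset.mem_sdiff] at hx
    exact ⟨hx.1.1, hx.1.2, hx.2.1, hx.2.2, fun e => hx.1.2 (e ▸ hr)⟩
  have hm3 : ∀ x ∈ L3, x ∈ K ∧ x ∉ S ∧ Even (dep x) ∧ par x = b := by
    intro x hx
    rw [hL3, Finset.mem_filter, Finset.mem_sdiff] at hx
    exact ⟨hx.1.1, hx.1.2, hx.2.1, hx.2.2⟩
  have hp2 : ∀ x ∈ L2, 0 ≤ f (par x) ∧ f (par x) < m := by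
    intro x hx
    obtain ⟨hxK, hxS, he, hp, hxr⟩ := hm2 x hx
    exact hfs (par x) (hpar x hxK hxS) (fun e => hpe x hxr he (e ▸ hreven)) hp
  -- the labelling
  set g : V → ℤ := fun x => if x ∈ S then f x else if Even (dep x) then
    (if par x = b then f b + w3 x else f (par x) + w2 x) else F - w1 x with hg
  have hgS : ∀ x ∈ S, g x = f x := fun x hx => by simp only [hg]; rw [if_pos hx]
  have hg1 : ∀ x ∈ L1, g x = F - w1 x := fun x hx => by
    obtain ⟨-, e1, e2, -⟩ := hm1 x hx
    simp only [hg]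
    rw [if_neg e1, if_neg e2]
  have hg2 : ∀ x ∈ L2, g x = f (par x) + w2 x := fun x hx => by
    obtain ⟨-, e1, e2, e3, -⟩ := hm2 x hx
    simp only [hg]
    rw [if_neg e1, if_pos e2, if_neg e3]
  have hg3 : ∀ x ∈ L3, g x = f b + w3 x := fun x hx => by
    obtain ⟨-, e1, e2, e3⟩ := hm3 x hx
    simp only [hg]
    rw [if_neg e1, if_pos e2, if_pos e3]
  -- colours
  have hcS : ∀ x ∈ S, x ≠ r → cl par dep g x = cl par dep f x := by
    intro x hx hxr
    unfold cl
    rw [hgS x hx, hgS _ (hcl x hx hxr)]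
  have hc1' : ∀ x ∈ L1, cl par dep g x = w1 x := by
    intro x hx
    obtain ⟨-, -, e1, e2⟩ := hm1 x hx
    unfold cl
    rw [if_neg e1, e2, hgS r hr, hfr, hg1 x hx]
    ring
  have hc2' : ∀ x ∈ L2, cl par dep g x = w2 x := by
    intro x hx
    obtain ⟨e0, e1, e2, e3, -⟩ := hm2 x hx
    unfold cl
    rw [if_pos e2, hgS _ (hpar x e0 e1), hg2 x hx]
    ring
  have hc3' : ∀ x ∈ L3, cl par dep g x = w3 x := by
    intro x hx
    obtain ⟨e0, e1, e2, e3⟩ := hm3 x hx
    unfold cl
    rw [if_pos e2, e3, hgS b hb, hg3 x hx]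
    ring
  have hcD : ∀ x ∈ S, x ≠ r → cl par dep g x ∈ D := by
    intro x hx hxr
    rw [hcS x hx hxr, hD, Finset.mem_image]
    exact ⟨x, Finset.mem_erase.2 ⟨hxr, hx⟩, rfl⟩
  have hcrange : ∀ x ∈ K, x ≠ r → c0 ≤ cl par dep g x ∧ cl par dep g x < c0 + N := by
    intro x hx hxr
    rw [← hc02]
    rcases hcase x hx with hx' | hx' | hx' | hx'
    · rcases hDb _ (hcD x hx' hxr) with h'' | h''
      · omega
      · omega
    · rw [hc1' x hx']
      have := hw1' x hx'
      omega
    · rw [hc2' x hx']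
      have := hw2' x hx'
      omega
    · rw [hc3' x hx']
      have := hw3' x hx'
      omega
  have hcinj : ∀ x ∈ K, ∀ y ∈ K, x ≠ r → y ≠ r → cl par dep g x = cl par dep g y → x = y := by
    have key : ∀ x ∈ S, x ≠ r → ∀ y ∈ K, y ∉ S → cl par dep g x ≠ cl par dep g y := by
      intro x hx hxr y hy hyS e
      have hD' := hcD x hx hxr
      rw [e] at hD'
      rcases hcase y hy with hy' | hy' | hy' | hy'
      · exact hyS hy'
      · rw [hc1' y hy'] at hD'
        exact (hw1' y hy').2.2 hD'
      · rw [hc2' y hy'] at hD'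
        exact (hw2' y hy').2.2 hD'
      · rw [hc3' y hy'] at hD'
        exact (hw3' y hy').2.2 hD'
    intro x hx y hy hxr hyr e
    rcases hcase x hx with hx' | hx' | hx' | hx' <;> rcases hcase y hy with hy' | hy' | hy' | hy'
    · rw [hcS x hx' hxr, hcS y hy' hyr] at e
      exact hf.col x hx' y hy' hxr hyr e
    · exact absurd e (key x hx' hxr y hy (hm1 y hy').2.1)
    · exact absurd e (key x hx' hxr y hy (hm2 y hy').2.1)
    · exact absurd e (key x hx' hxr y hy (hm3 y hy').2.1)
    · exact absurd e.symm (key y hy' hyr x hx (hm1 x hx').2.1)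
    · rw [hc1' x hx', hc1' y hy'] at e
      exact hw1i x hx' y hy' e
    · rw [hc1' x hx', hc2' y hy'] at e
      have e1 := hw1' x hx'
      have e2 := hw2' y hy'
      omega
    · rw [hc1' x hx', hc3' y hy'] at e
      have e1 := hw1' x hx'
      have e2 := hw3' y hy'
      omega
    · exact absurd e.symm (key y hy' hyr x hx (hm2 x hx').2.1)
    · rw [hc2' x hx', hc1' y hy'] at e
      have e1 := hw2' x hx'
      have e2 := hw1' y hy'
      omega
    · rw [hc2' x hx', hc2' y hy'] at e
      exact hw2i x hx' y hy' e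
    · rw [hc2' x hx', hc3' y hy'] at e
      have e1 := hw2' x hx'
      have e2 := hw3' y hy'
      omega
    · exact absurd e.symm (key y hy' hyr x hx (hm3 x hx').2.1)
    · rw [hc3' x hx', hc1' y hy'] at e
      have e1 := hw3' x hx'
      have e2 := hw1' y hy'
      omega
    · rw [hc3' x hx', hc2' y hy'] at e
      have e1 := hw3' x hx'
      have e2 := hw2' y hy'
      omega
    · rw [hc3' x hx', hc3' y hy'] at e
      exact hw3i x hx' y hy' e
  -- labels
  have hgrange : ∀ x ∈ K, 0 ≤ g x ∧ g x < 0 + (N : ℤ) := by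
    intro x hx
    rcases hcase x hx with hx' | hx' | hx' | hx'
    · rw [hgS x hx']
      by_cases hxr : x = r
      · rw [hxr, hfr]
        omega
      · by_cases hxb : x = b
        · rw [hxb]
          omega
        · have := hfs x hx' hxr hxb
          omega
    · rw [hg1 x hx']
      have := hw1' x hx'
      omega
    · rw [hg2 x hx']
      have := hw2' x hx'
      have := hp2 x hx'
      omega
    · rw [hg3 x hx']
      have := hw3' x hx'
      omega
  have hginj : ∀ x ∈ K, ∀ y ∈ K, (Even (dep x) ↔ Even (dep y)) → g x = g y → x = y := by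
    -- core and leaf
    have key : ∀ x ∈ S, ∀ y ∈ K, y ∉ S → (Even (dep x) ↔ Even (dep y)) → g x ≠ g y := by
      intro x hx y hy hyS hev e
      rw [hgS x hx] at e
      rcases hcase y hy with hy' | hy' | hy' | hy'
      · exact hyS hy'
      · -- columns
        obtain ⟨-, -, e1, -⟩ := hm1 y hy'
        rw [hg1 y hy'] at e
        have hxo : ¬ Even (dep x) := fun h' => e1 (hev.1 h')
        have hxr : x ≠ r := fun h' => hxo (h' ▸ hreven)
        have e2 := hw1' y hy'
        by_cases hxb : x = b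
        · rw [hxb] at e
          apply e2.2.2
          have : w1 y = F - f b := by omega
          rw [this]
          exact hFD
        · have := hfs x hx hxr hxb
          omega
      · obtain ⟨-, -, e1, -, -⟩ := hm2 y hy'
        rw [hg2 y hy'] at e
        have hxe : Even (dep x) := hev.2 e1
        have hxb : x ≠ b := fun h' => hbo (h' ▸ hxe)
        have e2 := hw2' y hy'
        have e3 := hp2 y hy'
        by_cases hxr : x = r
        · rw [hxr, hfr] at e
          omega
        · have := hfs x hx hxr hxb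
          omega
      · obtain ⟨-, -, e1, -⟩ := hm3 y hy'
        rw [hg3 y hy'] at e
        have hxe : Even (dep x) := hev.2 e1
        have hxb : x ≠ b := fun h' => hbo (h' ▸ hxe)
        have e2 := hw3' y hy'
        by_cases hxr : x = r
        · rw [hxr, hfr] at e
          omega
        · have := hfs x hx hxr hxb
          omega
    intro x hx y hy hev e
    rcases hcase x hx with hx' | hx' | hx' | hx' <;> rcases hcase y hy with hy' | hy' | hy' | hy'
    · rw [hgS x hx', hgS y hy'] at e
      exact hf.inj x hx' y hy' hev e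
    · exact absurd e (key x hx' y hy (hm1 y hy').2.1 hev)
    · exact absurd e (key x hx' y hy (hm2 y hy').2.1 hev)
    · exact absurd e (key x hx' y hy (hm3 y hy').2.1 hev)
    · exact absurd e.symm (key y hy' x hx (hm1 x hx').2.1 hev.symm)
    · rw [hg1 x hx', hg1 y hy'] at e
      exact hw1i x hx' y hy' (by omega)
    · exact absurd (hev.2 (hm2 y hy').2.2.1) (hm1 x hx').2.2.1
    · exact absurd (hev.2 (hm3 y hy').2.2.1) (hm1 x hx').2.2.1
    · exact absurd e.symm (key y hy' x hx (hm2 x hx').2.1 hev.symm)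
    · exact absurd (hev.1 (hm2 x hx').2.2.1) (hm1 y hy').2.2.1
    · rw [hg2 x hx', hg2 y hy'] at e
      apply hw2i x hx' y hy'
      rcases lt_trichotomy (w2 x) (w2 y) with hlt | heq | hlt
      · have := hw2m x hx' y hy' hlt
        omega
      · exact heq
      · have := hw2m y hy' x hx' hlt
        omega
    · rw [hg2 x hx', hg3 y hy'] at e
      have e1 := hw2' x hx'
      have e2 := hw3' y hy'
      have e3 := hp2 x hx'
      omega
    · exact absurd e.symm (key y hy' x hx (hm3 x hx').2.1 hev.symm)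
    · exact absurd (hev.1 (hm3 x hx').2.2.1) (hm1 y hy').2.2.1
    · rw [hg3 x hx', hg2 y hy'] at e
      have e1 := hw3' x hx'
      have e2 := hw2' y hy'
      have e3 := hp2 y hy'
      omega
    · rw [hg3 x hx', hg3 y hy'] at e
      exact hw3i x hx' y hy' (by omega)
  -- cast
  have hclc : ∀ x, cl par dep (fun y => ((g y : ℤ) : ZMod N)) x = ((cl par dep g x : ℤ) : ZMod N) := by
    intro x
    unfold cl
    split_ifs
    · push_cast
      rfl
    · push_cast
      rfl
  refine ⟨fun x => ((g x : ℤ) : ZMod N), ⟨?_, ?_⟩⟩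
  · intro x hx y hy hev e
    have e1 := hgrange x hx
    have e2 := hgrange y hy
    exact hginj x hx y hy hev (cast_inj e1.1 e1.2 e2.1 e2.2 e)
  · intro x hx y hy hxr hyr e
    rw [hclc, hclc] at e
    have e1 := hcrange x hx hxr
    have e2 := hcrange y hy hyr
    exact hcinj x hx y hy hxr hyr (cast_inj e1.1 e1.2 e2.1 e2.2 e)

end Pool.Agent.Helper1.GN
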