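import Pool.Agent.Helper1.GN.Defs

/-!
BLOCK GN-2 (about 100 lines). Greedy extension of a labelling with integer labels in windows of length `m`.

Proof in words. Induction on `(S \ S0).card`. If `S = S0` take `f = f0`. Otherwise let `x ∈ S \ S0` of minimal depth; `x ≠ r`, `par x ∈ S`, `dep (par x) < dep x`, so `par x ∈ S0`. In the window `[W x, W x + m)` avoid the values `f0 y` (`y ∈ S0`), at most `|S0|` values, and the values `z` for which the colour
`±(z - f0 (par x))` of `x` equals `cl par dep f0 y` (`y ∈ S0`), again at most `|S0|` values; `2 |S0| < 2 |S| ≤ m`, so one value `z` is left. `f1 = Function.update f0 x z`; colours of `y ∈ S0`, `y ≠ r` do not change (`y ≠ x`, `par y ∈ S0`). Apply the induction hypothesis to `insert x S0` and `f1`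
(closed: `par x ∈ S0`).
-/

set_option autoImplicit false

namespace Pool.Agent.Helper1.GN

open Finset Pool.Agent.Helper19.GH

theorem extend_lab {V : Type} [Fintype V] [DecidableEq V] {T : SimpleGraph V} {r : V} {par : V → V} {dep : V → ℕ}
    (h : RT T r par dep) {S0 S : Finset V} (h0 : r ∈ S0) (hcl0 : ∀ x ∈ S0, x ≠ r → par x ∈ S0)
    (hcl : ∀ x ∈ S, x ≠ r → par x ∈ S) (hsub : S0 ⊆ S) {m : ℕ} (hm : 2 * S.card ≤ m) (W f0 : V → ℤ)
    (hf0 : LabR r par dep S0 f0) :
    ∃ f : V → ℤ, (∀ x ∈ S0, f x = f0 x) ∧ (∀ x ∈ S, x ∉ S0 → W x ≤ f x ∧ f x < W x + m) ∧ LabR r par dep S f := by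
  classical
  obtain ⟨k, hk⟩ : ∃ k, (S \ S0).card = k := ⟨_, rfl⟩
  induction k generalizing S0 f0 with
  | zero =>
    have h1 : S \ S0 = ∅ := Finset.card_eq_zero.1 hk
    have h2 : S ⊆ S0 := Finset.sdiff_eq_empty_iff_subset.1 h1
    have h3 : S0 = S := Finset.Subset.antisymm hsub h2
    subst h3
    exact ⟨f0, fun _ _ => rfl, fun x hx hx' => absurd hx hx', hf0⟩
  | succ k ih =>
    have hne : (S \ S0).Nonempty := by
      rw [← Finset.card_pos, hk]
      exact Nat.succ_pos k
    obtain ⟨x, hx, hmin⟩ := Finset.exists_min_image (S \ S0) dep hne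
    rw [Finset.mem_sdiff] at hx
    obtain ⟨hxS, hxS0⟩ := hx
    have hxr : x ≠ r := fun h1 => hxS0 (h1 ▸ h0)
    have hpS : par x ∈ S := hcl x hxS hxr
    have hpS0 : par x ∈ S0 := by
      by_contra hp
      have h1 := hmin (par x) (Finset.mem_sdiff.2 ⟨hpS, hp⟩)
      have h2 := h.dep_par x hxr
      omega
    have hpx : par x ≠ x := fun h1 => hxS0 (h1 ▸ hpS0)
    -- the value of `x`
    obtain ⟨z, hz, hzA, hzB⟩ : ∃ z : ℤ, (W x ≤ z ∧ z < W x + m) ∧ (∀ y ∈ S0, f0 y ≠ z) ∧
        (∀ y ∈ S0, cl par dep f0 y ≠ if Even (dep x) then z - f0 (par x) else f0 (par x) - z) := by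
      let g : V → ℤ := fun y => if Even (dep x) then cl par dep f0 y + f0 (par x) else f0 (par x) - cl par dep f0 y
      have hlt : S0.card < S.card := Finset.card_lt_card ⟨hsub, fun h1 => hxS0 (h1 hxS)⟩
      have hc1 : (S0.image f0 ∪ S0.image g).card < (Finset.Ico (W x) (W x + m)).card := by
        have h1 : (S0.image f0 ∪ S0.image g).card ≤ S0.card + S0.card :=
          (Finset.card_union_le _ _).trans (Nat.add_le_add Finset.card_image_le Finset.card_image_le)
        have h2 : (Finset.Ico (W x) (W x + m)).card = m := by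
          rw [Int.card_Ico]
          simp
        rw [h2]
        omega
      obtain ⟨z, hz1, hz2⟩ := Finset.exists_mem_notMem_of_card_lt_card hc1
      rw [Finset.mem_Ico] at hz1
      rw [Finset.mem_union, not_or] at hz2
      refine ⟨z, hz1, fun y hy h1 => hz2.1 (Finset.mem_image.2 ⟨y, hy, h1⟩), fun y hy h1 =>
        hz2.2 (Finset.mem_image.2 ⟨y, hy, ?_⟩)⟩
      change (if Even (dep x) then cl par dep f0 y + f0 (par x) else f0 (par x) - cl par dep f0 y) = z
      rw [h1]
      split_ifs
      · ring
      · ring
    have hf1x : Function.update f0 x z x = z := Function.update_self x z f0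
    have hf1 : ∀ y ∈ S0, Function.update f0 x z y = f0 y := fun y hy =>
      Function.update_of_ne (fun h1 : y = x => hxS0 (h1 ▸ hy)) z f0
    have hclx : cl par dep (Function.update f0 x z) x =
        if Even (dep x) then z - f0 (par x) else f0 (par x) - z := by
      unfold cl
      rw [hf1x, hf1 _ hpS0]
    have hcly : ∀ y ∈ S0, y ≠ r → cl par dep (Function.update f0 x z) y = cl par dep f0 y := by
      intro y hy hyr
      unfold cl
      rw [hf1 y hy, hf1 _ (hcl0 y hy hyr)]
    have hL : LabR r par dep (insert x S0) (Function.update f0 x z) := by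
      constructor
      · intro u hu v hv hpar huv
        rcases Finset.mem_insert.1 hu with hux | hu'
        · rcases Finset.mem_insert.1 hv with hvx | hv'
          · rw [hux, hvx]
          · rw [hux, hf1x, hf1 v hv'] at huv
            exact absurd huv.symm (hzA v hv')
        · rcases Finset.mem_insert.1 hv with hvx | hv'
          · rw [hvx, hf1x, hf1 u hu'] at huv
            exact absurd huv (hzA u hu')
          · rw [hf1 u hu', hf1 v hv'] at huv
            exact hf0.inj u hu' v hv' hpar huv
      · intro u hu v hv hur hvr huv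
        rcases Finset.mem_insert.1 hu with hux | hu'
        · rcases Finset.mem_insert.1 hv with hvx | hv'
          · rw [hux, hvx]
          · rw [hux, hclx, hcly v hv' hvr] at huv
            exact absurd huv.symm (hzB v hv')
        · rcases Finset.mem_insert.1 hv with hvx | hv'
          · rw [hvx, hclx, hcly u hu' hur] at huv
            exact absurd huv (hzB u hu')
          · rw [hcly u hu' hur, hcly v hv' hvr] at huv
            exact hf0.col u hu' v hv' hur hvr huv
    have hsub' : insert x S0 ⊆ S := Finset.insert_subset hxS hsub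
    have hcl' : ∀ y ∈ insert x S0, y ≠ r → par y ∈ insert x S0 := by
      intro y hy hyr
      rcases Finset.mem_insert.1 hy with rfl | hy
      · exact Finset.mem_insert_of_mem hpS0
      · exact Finset.mem_insert_of_mem (hcl0 y hy hyr)
    have hk' : (S \ insert x S0).card = k := by
      have h1 : S \ insert x S0 = (S \ S0).erase x := by
        ext y
        simp only [Finset.mem_sdiff, Finset.mem_insert, Finset.mem_erase]
        tauto
      rw [h1, Finset.card_erase_of_mem (Finset.mem_sdiff.2 ⟨hxS, hxS0⟩), hk]
      rfl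
    obtain ⟨f, hf, hfW, hfL⟩ := ih (Finset.mem_insert_of_mem h0) hcl' hsub' (Function.update f0 x z) hL hk'
    refine ⟨f, fun y hy => ?_, fun y hy hy' => ?_, hfL⟩
    · rw [hf y (Finset.mem_insert_of_mem hy), hf1 y hy]
    · by_cases hyx : y = x
      · subst hyx
        rw [hf y (Finset.mem_insert_self _ _), hf1x]
        exact hz
      · exact hfW y hy fun h1 => (Finset.mem_insert.1 h1).elim hyx hy'

end Pool.Agent.Helper1.GN
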