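import Pool.Agent.Helper1.GN.Defs

/-!
BLOCK GN-7 (about 120 lines). Elementary facts.

* `split`: if `t = 0` take `Q = ∅`. Let `Q ⊆ A` be of minimal cardinality with `t ≤ ∑_Q ℓ` (exists: `A`). If `t ≤ ∑_{A \ Q} ℓ` we are done. Otherwise `∑_Q ℓ > ∑_A ℓ - t`; `Q` is not empty; for `a ∈ Q` `∑_{Q.erase a} ℓ < t` by minimality, so `ℓ a > ∑_A ℓ - 2t`.
* `leaf_nb`: in a tree with at least 3 vertices the neighbour of a leaf is not a leaf (otherwise the two vertices are a connected component), and it is unique.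
* `sum_lv`: the leaves in `B` are the disjoint union of the `lv T a`, `a ∉ B` not a leaf (`leaf_nb`, `hB`).
* `parity`: if `r ∉ B` then `dep x` is even iff `x ∉ B` (induction on `dep x`).
* `labR_lab`: for an edge `a v` (`a ∉ B`, `v ∈ B`) one end is the parent of the other one (`edge`), and `f a - f v = cl par dep f x` for this lower end `x`; if the lower ends of the edges `a v`, `a' v'` are equal then (`x = a = a'`: `v = par x = v'`) or (`x = v = v'`) (the parities of `a` and `v` are different).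
* `core_closed`: `S` = the vertices of degree `≠ 1`, `r ∈ S`: closed under parents (`par x ≠ r`: its neighbours `x` and `par (par x)` are different, so its degree is at least 2; depths), and `par x ∈ S` also for leaves `x ≠ r`.
-/

set_option autoImplicit false

namespace Pool.Agent.Helper1.GN

open Finset Pool.Agent.Helper19.GH

theorem split {V : Type} [DecidableEq V] (A : Finset V) (l : V → ℕ) (t : ℕ) (h : t ≤ ∑ a ∈ A, l a) :
    (∃ Q ⊆ A, t ≤ ∑ a ∈ Q, l a ∧ t ≤ ∑ a ∈ A \ Q, l a) ∨ ∃ a ∈ A, ∑ a ∈ A, l a ≤ l a + 2 * t := by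
  by_cases ht : t = 0
  · exact Or.inl ⟨∅, empty_subset _, by simp [ht], by simp [ht]⟩
  obtain ⟨Q, hQ, hmin⟩ := Finset.exists_min_image (A.powerset.filter fun Q => t ≤ ∑ a ∈ Q, l a) (fun Q => Q.card)
    ⟨A, by simp [h]⟩
  simp only [mem_filter, mem_powerset] at hQ hmin
  by_cases h2 : t ≤ ∑ a ∈ A \ Q, l a
  · exact Or.inl ⟨Q, hQ.1, hQ.2, h2⟩
  · right
    have h3 : ∑ a ∈ A \ Q, l a + ∑ a ∈ Q, l a = ∑ a ∈ A, l a := sum_sdiff hQ.1
    have hne : Q.Nonempty := by
      rw [nonempty_iff_ne_empty]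
      rintro rfl
      have := hQ.2
      simp only [sum_empty] at this
      omega
    obtain ⟨a, ha⟩ := hne
    refine ⟨a, hQ.1 ha, ?_⟩
    have h4 : l a + ∑ b ∈ Q.erase a, l b = ∑ b ∈ Q, l b := add_sum_erase Q l ha
    have h5 : ¬ t ≤ ∑ b ∈ Q.erase a, l b := by
      intro h6
      have := hmin (Q.erase a) ⟨(erase_subset a Q).trans hQ.1, h6⟩
      have h7 := card_erase_lt_of_mem ha
      omega
    omega

variable {V : Type} [Fintype V] [DecidableEq V] {T : SimpleGraph V}

open Classical in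
private theorem leaf_unique61 {x y : V} (hx : T.degree x = 1) (hxy : T.Adj x y) : ∀ z, T.Adj x z → z = y := by
  intro z hz
  rw [← SimpleGraph.card_neighborFinset_eq_degree, Finset.card_eq_one] at hx
  obtain ⟨w, hw⟩ := hx
  have h1 : y ∈ T.neighborFinset x := by simpa using hxy
  have h2 : z ∈ T.neighborFinset x := by simpa using hz
  rw [hw, mem_singleton] at h1 h2
  rw [h1, h2]

open Classical in
theorem leaf_nb (hT : T.IsTree) (h3 : 3 ≤ Fintype.card V) {x y : V} (hx : T.degree x = 1) (hxy : T.Adj x y) :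
    T.degree y ≠ 1 ∧ ∀ z, T.Adj x z → z = y := by
  refine ⟨?_, leaf_unique61 hx hxy⟩
  intro hy
  have h1 := leaf_unique61 hx hxy
  have h2 := leaf_unique61 hy hxy.symm
  have h4 : ∀ z, z = x ∨ z = y := by
    intro z
    obtain ⟨w⟩ := hT.connected x z
    have key : ∀ {a b : V}, T.Walk a b → (a = x ∨ a = y) → (b = x ∨ b = y) := by
      intro a b w
      induction w with
      | nil => exact id
      | cons h _ ih =>
        intro hab
        apply ih
        rcases hab with rfl | rfl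
        · exact Or.inr (h1 _ h)
        · exact Or.inl (h2 _ h)
    exact key w (Or.inl rfl)
  have h5 : (univ : Finset V) ⊆ {x, y} := by
    intro z _
    rcases h4 z with rfl | rfl <;> simp
  have h6 := card_le_card h5
  have h7 : ({x, y} : Finset V).card ≤ 2 := card_le_two
  rw [card_univ] at h6
  omega

open Classical in
private theorem exists_nb61 {x : V} (hx : T.degree x = 1) : ∃ y, T.Adj x y := by
  rw [← SimpleGraph.card_neighborFinset_eq_degree, Finset.card_eq_one] at hx
  obtain ⟨w, hw⟩ := hx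
  exact ⟨w, by
    have : w ∈ T.neighborFinset x := by rw [hw]; simp
    simpa using this⟩

open Classical in
theorem sum_lv (hT : T.IsTree) (h3 : 3 ≤ Fintype.card V) {B : Finset V} (hB : ∀ u w, T.Adj u w → (u ∈ B ↔ w ∉ B)) :
    ∑ a ∈ univ.filter (fun a => T.degree a ≠ 1 ∧ a ∉ B), (lv T a).card = (univ.filter fun x => T.degree x = 1 ∧ x ∈ B).card := by
  rw [← card_biUnion]
  · congr 1
    ext x
    simp only [mem_biUnion, mem_filter, mem_univ, true_and, lv]
    constructor
    · rintro ⟨a, ⟨_, ha2⟩, hx, hax⟩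
      refine ⟨hx, ?_⟩
      have := hB a x hax
      by_contra hxB
      exact ha2 (this.2 hxB)
    · rintro ⟨hx, hxB⟩
      obtain ⟨y, hy⟩ := exists_nb61 hx
      exact ⟨y, ⟨(leaf_nb hT h3 hx hy).1, (hB x y hy).1 hxB⟩, hx, hy.symm⟩
  · intro a _ b _ hab
    simp only [Function.onFun]
    rw [disjoint_left]
    intro x hx hx'
    simp only [lv, mem_filter, mem_univ, true_and] at hx hx'
    exact hab ((leaf_nb hT h3 hx.1 hx.2.symm).2 b hx'.2.symm).symm

theorem parity {B : Finset V} (hB : ∀ u w, T.Adj u w → (u ∈ B ↔ w ∉ B)) {r : V} {par : V → V} {dep : V → ℕ} (h : RT T r par dep)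
    (hr : r ∉ B) (x : V) : Even (dep x) ↔ x ∉ B := by
  have key : ∀ n : ℕ, ∀ x, dep x = n → (Even (dep x) ↔ x ∉ B) := by
    intro n
    induction n with
    | zero =>
      intro x hx
      have : x = r := by
        by_contra hxr
        have := h.dep_par x hxr
        omega
      subst this
      simp [h.root, hr]
    | succ n ih =>
      intro x hx
      have hxr : x ≠ r := by
        rintro rfl
        have := h.root
        omega
      have h1 := h.dep_par x hxr
      have h2 := ih (par x) (by omega)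
      have h3 := hB x (par x) (h.adj x hxr)
      rw [h1, Nat.even_add_one, h2, h3]
  exact key _ x rfl

theorem labR_lab {B : Finset V} (hB : ∀ u w, T.Adj u w → (u ∈ B ↔ w ∉ B)) {r : V} {par : V → V} {dep : V → ℕ} (h : RT T r par dep)
    (hr : r ∉ B) {K : Finset V} {N : ℕ} {f : V → ZMod N} (hf : LabR r par dep K f) : Lab T B K N f := by
  have hp := parity hB h hr
  have he : ∀ a ∈ K, ∀ v ∈ K, a ∉ B → v ∈ B → T.Adj a v → ∃ x ∈ K, x ≠ r ∧ f a - f v = cl par dep f x ∧
      ((x = a ∧ par x = v) ∨ (x = v ∧ par x = a)) := by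
    intro a ha v hv haB hvB hav
    rcases h.edge a v hav with ⟨h1, h2⟩ | ⟨h1, h2⟩
    · refine ⟨a, ha, h1, ?_, Or.inl ⟨rfl, h2⟩⟩
      rw [cl, if_pos ((hp a).2 haB), h2]
    · refine ⟨v, hv, h1, ?_, Or.inr ⟨rfl, h2⟩⟩
      rw [cl, if_neg (fun hh => ((hp v).1 hh) hvB), h2]
  refine ⟨?_, ?_, ?_⟩
  · intro a ha a' ha' haB ha'B hh
    exact hf.inj a ha a' ha' (by simp [hp, haB, ha'B]) hh
  · intro a ha a' ha' haB ha'B hh
    exact hf.inj a ha a' ha' (by simp [hp, haB, ha'B]) hh
  · intro a ha v hv a' ha' v' hv' haB hvB ha'B hv'B hav hav' hh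
    obtain ⟨x, hx, hxr, e1, c1⟩ := he a ha v hv haB hvB hav
    obtain ⟨x', hx', hxr', e2, c2⟩ := he a' ha' v' hv' ha'B hv'B hav'
    have hxx : x = x' := hf.col x hx x' hx' hxr hxr' (by rw [← e1, ← e2, hh])
    subst hxx
    rcases c1 with ⟨rfl, rfl⟩ | ⟨rfl, rfl⟩
    · rcases c2 with ⟨rfl, rfl⟩ | ⟨rfl, rfl⟩
      · exact ⟨rfl, rfl⟩
      · exact absurd hv'B haB
    · rcases c2 with ⟨rfl, rfl⟩ | ⟨rfl, rfl⟩
      · exact absurd hvB ha'B
      · exact ⟨rfl, rfl⟩

open Classical in
theorem core_closed (hT : T.IsTree) (h3 : 3 ≤ Fintype.card V) {r : V} {par : V → V} {dep : V → ℕ} (h : RT T r par dep)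
    (hr : T.degree r ≠ 1) (x : V) (hx : x ≠ r) : T.degree (par x) ≠ 1 := by
  intro h1
  have hpr : par x ≠ r := by
    intro hh
    rw [hh] at h1
    exact hr h1
  have h2 := leaf_unique61 h1 (h.adj x hx).symm (par (par x)) (h.adj _ hpr)
  have h4 := h.dep_par x hx
  have h5 := h.dep_par (par x) hpr
  rw [h2] at h5
  omega

end Pool.Agent.Helper1.GN
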