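import Pool.Agent.Helper1.GN.DiagB
import Pool.Agent.Helper1.GN.Split

/-!
BLOCK GN-9 (about 150 lines). Case B without root: choice of the leaves which are kept.

Proof in words. `S = univ.filter (degree ≠ 1)`, `s = |S| ≥ 1`. Root `r = a`; `exists_RT`, `parity`, `core_closed`. For a leaf `x` (not `r`) `par x ∈ S` and `lv T c = {x : leaf, par x = c}` (`leaf_nb`).
`K1` = any set of `#(leaves in B) - β` elements of `lv T a` (possible: `#(leaves in B) - β ≤ #(leaves in B) - 8 s ≤ |lv T a|`; `lv T a ⊆ B` by `hB`), `K2` = any set of `#(leaves outside B) - α` leaves outside `B`. `K = S ∪ K1 ∪ K2`, `|K| = n + 1 - α - β`.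
`diagB` with `m = 2 s`, `F = 14 s`, `N = n - α - β`, `b`: (h1) `|K1| ≥ 18 s = F + 2 m`; (h2) the leaves outside `B` not at `b` are at most `8 s` (`h2`), `3 m + 8 s = F`; (h3) `|K2| - 8 s ≥ 15 s ≥ F + 1`. `labR_lab`.
-/

set_option autoImplicit false

namespace Pool.Agent.Helper1.GN

open Finset Pool.Agent.Helper19.GH

open Classical in
theorem feasB {V : Type} [Fintype V] [DecidableEq V] {T : SimpleGraph V} (hT : T.IsTree) {n : ℕ} (hn : Fintype.card V = n + 1)
    (h3 : 3 ≤ Fintype.card V) {B : Finset V} (hB : ∀ u w, T.Adj u w → (u ∈ B ↔ w ∉ B)) {s : ℕ} (hs : 1 ≤ s)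
    (hS : (univ.filter fun x => T.degree x ≠ 1).card = s) {a b : V} (ha : T.degree a ≠ 1) (haB : a ∉ B) (hb : T.degree b ≠ 1)
    (hbB : b ∈ B) (h1 : (univ.filter fun x => T.degree x = 1 ∧ x ∈ B).card ≤ (lv T a).card + 8 * s)
    (h2 : (univ.filter fun x => T.degree x = 1 ∧ x ∉ B).card ≤ (lv T b).card + 8 * s) {α β : ℕ}
    (hα : α + 23 * s ≤ (univ.filter fun x => T.degree x = 1 ∧ x ∉ B).card)
    (hβ : β + 18 * s ≤ (univ.filter fun x => T.degree x = 1 ∧ x ∈ B).card) (hβ' : 8 * s ≤ β) : Feas T B n α β := by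
  set S : Finset V := univ.filter fun x => T.degree x ≠ 1 with hSdef
  obtain ⟨par, dep, h⟩ := exists_RT T hT a
  have hpar : ∀ x, Even (dep x) ↔ x ∉ B := fun x => parity hB h haB x
  have hcc : ∀ x, x ≠ a → T.degree (par x) ≠ 1 := fun x hx => core_closed hT h3 h ha x hx
  set LA : Finset V := univ.filter fun x => T.degree x = 1 ∧ x ∉ B with hLA
  set LB : Finset V := univ.filter fun x => T.degree x = 1 ∧ x ∈ B with hLB
  have hlva : ∀ x ∈ lv T a, T.degree x = 1 ∧ T.Adj a x := by
    intro x hx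
    rw [lv] at hx
    exact (mem_filter.mp hx).2
  have hlvb : ∀ x ∈ lv T b, T.degree x = 1 ∧ T.Adj b x := by
    intro x hx
    rw [lv] at hx
    exact (mem_filter.mp hx).2
  have hlvaB : lv T a ⊆ LB := by
    intro x hx
    have e := hlva x hx
    refine mem_filter.mpr ⟨mem_univ _, e.1, ?_⟩
    by_contra hc
    exact haB ((hB a x e.2).mpr hc)
  have hlvbA : lv T b ⊆ LA := by
    intro x hx
    have e := hlvb x hx
    exact mem_filter.mpr ⟨mem_univ _, e.1, (hB b x e.2).mp hbB⟩
  have hK1le : LB.card - β ≤ (lv T a).card := by omega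
  obtain ⟨K1, hK1s, hK1c⟩ := Finset.exists_subset_card_eq hK1le
  obtain ⟨K2, hK2s, hK2c⟩ := Finset.exists_subset_card_eq (Nat.sub_le LA.card α)
  have hK1b : K1 ⊆ LB := hK1s.trans hlvaB
  have hK1m : ∀ x ∈ K1, T.degree x = 1 ∧ x ∈ B := fun x hx => (mem_filter.mp (hK1b hx)).2
  have hK2m : ∀ x ∈ K2, T.degree x = 1 ∧ x ∉ B := fun x hx => (mem_filter.mp (hK2s hx)).2
  set K : Finset V := S ∪ (K1 ∪ K2) with hKdef
  have hKS : ∀ x, x ∈ K ↔ (T.degree x ≠ 1 ∨ x ∈ K1 ∨ x ∈ K2) := by
    intro x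
    rw [hKdef, mem_union, mem_union, hSdef, mem_filter]
    simp
  have hnK : ∀ x, x ∉ K → T.degree x = 1 := by
    intro x hx
    by_contra hc
    exact hx ((hKS x).mpr (Or.inl hc))
  have ecA : (univ.filter fun x => x ∉ K ∧ x ∉ B) = LA \ K2 := by
    ext x
    simp only [mem_filter, mem_univ, true_and, mem_sdiff, hLA]
    constructor
    · rintro ⟨hxK, hxB⟩
      exact ⟨⟨hnK x hxK, hxB⟩, fun hc => hxK ((hKS x).mpr (Or.inr (Or.inr hc)))⟩
    · rintro ⟨⟨hxd, hxB⟩, hxK⟩
      refine ⟨fun hc => ?_, hxB⟩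
      rcases (hKS x).mp hc with hc | hc | hc
      · exact hc hxd
      · exact hxB (hK1m x hc).2
      · exact hxK hc
  have ecB : (univ.filter fun x => x ∉ K ∧ x ∈ B) = LB \ K1 := by
    ext x
    simp only [mem_filter, mem_univ, true_and, mem_sdiff, hLB]
    constructor
    · rintro ⟨hxK, hxB⟩
      exact ⟨⟨hnK x hxK, hxB⟩, fun hc => hxK ((hKS x).mpr (Or.inr (Or.inl hc)))⟩
    · rintro ⟨⟨hxd, hxB⟩, hxK⟩
      refine ⟨fun hc => ?_, hxB⟩
      rcases (hKS x).mp hc with hc | hc | hc
      · exact hc hxd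
      · exact hxK hc
      · exact (hK2m x hc).2 hxB
  have ccA : (univ.filter fun x => x ∉ K ∧ x ∉ B).card = α := by
    rw [ecA, Finset.card_sdiff_of_subset hK2s, hK2c]
    omega
  have ccB : (univ.filter fun x => x ∉ K ∧ x ∈ B).card = β := by
    rw [ecB, Finset.card_sdiff_of_subset hK1b, hK1c]
    omega
  have hdAB : Disjoint LA LB := by
    rw [Finset.disjoint_left]
    intro x hx hx2
    exact (mem_filter.mp hx).2.2 (mem_filter.mp hx2).2.2
  have hdS : Disjoint S (LA ∪ LB) := by
    rw [Finset.disjoint_left]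
    intro x hx hx2
    rcases mem_union.mp hx2 with hx2 | hx2
    · exact (mem_filter.mp hx).2 (mem_filter.mp hx2).2.1
    · exact (mem_filter.mp hx).2 (mem_filter.mp hx2).2.1
  have huniv : S ∪ (LA ∪ LB) = univ := by
    apply Finset.eq_univ_of_forall
    intro x
    by_cases hx : T.degree x = 1
    · by_cases hxB : x ∈ B
      · exact mem_union_right _ (mem_union_right _ (mem_filter.mpr ⟨mem_univ _, hx, hxB⟩))
      · exact mem_union_right _ (mem_union_left _ (mem_filter.mpr ⟨mem_univ _, hx, hxB⟩))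
    · exact mem_union_left _ (mem_filter.mpr ⟨mem_univ _, hx⟩)
  have hcardV : s + (LA.card + LB.card) = n + 1 := by
    rw [← hn, ← Finset.card_univ, ← huniv, Finset.card_union_of_disjoint hdS, Finset.card_union_of_disjoint hdAB, hS]
  have hd12 : Disjoint K1 K2 := by
    rw [Finset.disjoint_left]
    intro x hx hx2
    exact (hK2m x hx2).2 (hK1m x hx).2
  have hdS2 : Disjoint S (K1 ∪ K2) := by
    rw [Finset.disjoint_left]
    intro x hx hx2
    rcases mem_union.mp hx2 with hx2 | hx2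
    · exact (mem_filter.mp hx).2 (hK1m x hx2).1
    · exact (mem_filter.mp hx).2 (hK2m x hx2).1
  have hKcard : K.card = (n - α - β) + 1 := by
    rw [hKdef, Finset.card_union_of_disjoint hdS2, Finset.card_union_of_disjoint hd12, hS, hK1c, hK2c]
    omega
  have hSK : S ⊆ K := Finset.subset_union_left
  have hrS : a ∈ S := mem_filter.mpr ⟨mem_univ _, ha⟩
  have hbS : b ∈ S := mem_filter.mpr ⟨mem_univ _, hb⟩
  have hparS : ∀ x, x ≠ a → par x ∈ S := fun x hx => mem_filter.mpr ⟨mem_univ _, hcc x hx⟩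
  have hmemKS : ∀ x, x ∈ K1 ∨ x ∈ K2 → x ∈ K \ S := by
    intro x hx
    refine mem_sdiff.mpr ⟨(hKS x).mpr (Or.inr hx), fun hc => ?_⟩
    rcases hx with hx | hx
    · exact (mem_filter.mp hc).2 (hK1m x hx).1
    · exact (mem_filter.mp hc).2 (hK2m x hx).1
  have hKSm : ∀ x ∈ K \ S, x ∈ K1 ∨ x ∈ K2 := by
    intro x hx
    rw [mem_sdiff] at hx
    rcases (hKS x).mp hx.1 with hc | hc
    · exact absurd (show x ∈ S from mem_filter.mpr ⟨mem_univ _, hc⟩) hx.2
    · exact hc
  -- the even leaves of K are the elements of K2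
  have hev : ((K \ S).filter fun x => Even (dep x)) = K2 := by
    ext x
    rw [mem_filter]
    constructor
    · rintro ⟨hx, he⟩
      rcases hKSm x hx with hc | hc
      · exact absurd (hK1m x hc).2 ((hpar x).1 he)
      · exact hc
    · intro hx
      exact ⟨hmemKS x (Or.inr hx), (hpar x).2 (hK2m x hx).2⟩
  have hsplit : ((K \ S).filter fun x => Even (dep x) ∧ par x = b).card +
      ((K \ S).filter fun x => Even (dep x) ∧ par x ≠ b).card = K2.card := by
    rw [← hev, ← Finset.card_filter_add_card_filter_not (s := (K \ S).filter fun x => Even (dep x)) (fun x => par x = b),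
      Finset.filter_filter, Finset.filter_filter]
  have hne : ((K \ S).filter fun x => Even (dep x) ∧ par x ≠ b).card ≤ 8 * s := by
    have hsub : ((K \ S).filter fun x => Even (dep x) ∧ par x ≠ b) ⊆ LA \ lv T b := by
      intro x hx
      rw [mem_filter] at hx
      obtain ⟨hx1, hx2, hx3⟩ := hx
      have hxK2 : x ∈ K2 := by
        rw [← hev]
        exact mem_filter.mpr ⟨hx1, hx2⟩
      refine mem_sdiff.mpr ⟨hK2s hxK2, fun hc => hx3 ?_⟩
      have e := hlvb x hc
      have hxa : x ≠ a := by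
        rintro rfl
        exact ha e.1
      exact (leaf_nb hT h3 e.1 e.2.symm).2 (par x) (h.adj x hxa)
    have e1 := Finset.card_le_card hsub
    rw [Finset.card_sdiff_of_subset hlvbA] at e1
    omega
  obtain ⟨f, hf⟩ := diagB h hrS (fun x _ hx => hparS x hx) hSK
    (fun x _ hx => hparS x (by
      rintro rfl
      exact hx hrS)) (N := n - α - β) (m := 2 * s) (F := 14 * s) hKcard (by rw [hS]) (b := b) hbS
    (by
      rw [hpar b, not_not]
      exact hbB)
    (by
      intro x hxK hxS hxo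
      have hx1 : x ∈ K1 := by
        rcases hKSm x (mem_sdiff.mpr ⟨hxK, hxS⟩) with hc | hc
        · exact hc
        · exact absurd ((hpar x).2 (hK2m x hc).2) hxo
      have e := hlva x (hK1s hx1)
      have hxa : x ≠ a := by
        rintro rfl
        exact ha e.1
      exact (leaf_nb hT h3 e.1 e.2.symm).2 (par x) (h.adj x hxa))
    (by
      have hsub : K1 ⊆ (K \ S).filter fun x => ¬ Even (dep x) := by
        intro x hx
        refine mem_filter.mpr ⟨hmemKS x (Or.inl hx), ?_⟩
        rw [hpar x, not_not]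
        exact (hK1m x hx).2
      have := Finset.card_le_card hsub
      omega)
    (by omega)
    (by omega)
  exact ⟨K, hnK, ccA, ccB, f, labR_lab hB h haB hf⟩

end Pool.Agent.Helper1.GN
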