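import Pool.Agent.Helper1.GN.FeasA
import Pool.Agent.Helper1.GN.FeasB

/-!
Project GN: one can remove `α` leaves outside `B` and `β` leaves in `B` if `α + 40 s`, `β + 40 s` are at most the numbers of the leaves and `8 s ≤ β`.
-/

set_option autoImplicit false

namespace Pool.Agent.Helper1.GN

open Finset Pool.Agent.Helper19.GH

variable {V : Type} [Fintype V] [DecidableEq V] {T : SimpleGraph V}

theorem Lab.swap {B K : Finset V} {N : ℕ} {f : V → ZMod N} (h : Lab T Bᶜ K N f) : Lab T B K N f := by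
  refine ⟨fun a ha a' ha' h1 h2 => h.cols a ha a' ha' (mem_compl.2 h1) (mem_compl.2 h2),
    fun a ha a' ha' h1 h2 => h.rows a ha a' ha' (by simpa using h1) (by simpa using h2), ?_⟩
  intro a ha v hv a' ha' v' hv' h1 h2 h3 h4 h5 h6 h7
  have h8 := h.diff v hv a ha v' hv' a' ha' (by simpa using h2) (mem_compl.2 h1) (by simpa using h4) (mem_compl.2 h3) h5.symm h6.symm
    (by rw [← neg_sub, h7, neg_sub])
  exact ⟨h8.2, h8.1⟩

theorem Feas.swap {B : Finset V} {n α β : ℕ} (h : Feas T Bᶜ n β α) : Feas T B n α β := by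
  classical
  obtain ⟨K, h1, h2, h3, h4⟩ := h
  rw [Nat.sub_right_comm n β α] at h4
  obtain ⟨f, hf⟩ := h4
  refine ⟨K, h1, ?_, ?_, f, hf.swap⟩
  · rw [← h3]
    congr 1
    ext x
    simp
  · rw [← h2]
    congr 1
    ext x
    simp

open Classical in
theorem feas (hT : T.IsTree) {n : ℕ} (hn : Fintype.card V = n + 1)
    (h3 : 3 ≤ Fintype.card V) {B : Finset V} (hB : ∀ u w, T.Adj u w → (u ∈ B ↔ w ∉ B)) {s : ℕ} (hs : 1 ≤ s)
    (hS : (univ.filter fun x => T.degree x ≠ 1).card = s) {α β : ℕ}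
    (hα : α + 40 * s ≤ (univ.filter fun x => T.degree x = 1 ∧ x ∉ B).card)
    (hβ : β + 40 * s ≤ (univ.filter fun x => T.degree x = 1 ∧ x ∈ B).card) (hβ' : 8 * s ≤ β) : Feas T B n α β := by
  have hB' : ∀ u w, T.Adj u w → (u ∈ Bᶜ ↔ w ∉ Bᶜ) := by
    intro u w huw
    have := hB u w huw
    rw [mem_compl, mem_compl]
    tauto
  have e1 := sum_lv hT h3 hB
  have e2 := sum_lv hT h3 hB'
  have e3 : (univ.filter fun x => T.degree x = 1 ∧ x ∈ Bᶜ) = univ.filter fun x => T.degree x = 1 ∧ x ∉ B := by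
    ext x
    simp
  have e4 : (univ.filter fun x => T.degree x = 1 ∧ x ∉ Bᶜ) = univ.filter fun x => T.degree x = 1 ∧ x ∈ B := by
    ext x
    simp
  rw [e3] at e2
  rcases split (univ.filter fun a => T.degree a ≠ 1 ∧ a ∉ B) (fun a => (lv T a).card) (4 * s) (by rw [e1]; omega) with
    ⟨Q, hQ, h4, h5⟩ | ⟨a, ha, h4⟩
  · exact feasA hT hn h3 hB hs hS hQ h4 h5 (by omega) (by omega)
  · rcases split (univ.filter fun a => T.degree a ≠ 1 ∧ a ∉ Bᶜ) (fun a => (lv T a).card) (4 * s) (by rw [e2]; omega) with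
      ⟨Q, hQ, h5, h6⟩ | ⟨b, hb, h5⟩
    · exact (feasA hT hn h3 hB' hs hS hQ h5 h6 (by rw [e4]; omega) (by rw [e3]; omega)).swap
    · rw [mem_filter] at ha hb
      rw [e1] at h4
      rw [e2] at h5
      exact feasB hT hn h3 hB hs hS (a := a) (b := b) ha.2.1 ha.2.2 hb.2.1 (by simpa using hb.2.2) (by omega) (by omega) (by omega)
        (by omega) hβ'

end Pool.Agent.Helper1.GN
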