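import Pool.Agent.Helper1.GN.DiagA
import Pool.Agent.Helper1.GN.Split

/-!
BLOCK GN-8 (about 150 lines). Case A without root: choice of the leaves which are kept.

Proof in words. `S = univ.filter (degree ≠ 1)`, `s = |S| ≥ 1`. `4 s ≤ ∑_{a ∈ Q} |lv T a|` and `s ≥ 1` give an `r ∈ Q`; `r ∈ S`, `r ∉ B`; `exists_RT`, `parity`, `core_closed`. For a leaf `x` (it is not `r`) `par x ∈ S` and `lv T a = {x : leaf, par x = a}` (`leaf_nb`).
Leaves in `B` with parent in `Q`: `∑_{a ∈ Q} |lv T a| ≥ 4 s` of them, with parent not in `Q`: `≥ 4 s`. Choose `K1` = leaves in `B`, of cardinality `#(leaves in B) - β ≥ 8 s`, containing `4 s` leaves with parent in `Q` and `4 s` leaves with parent not in `Q` (`Finset.exists_subsuperset_card_eq`); `K2` = leaves outside `B`, of cardinality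
`#(leaves outside B) - α ≥ 6 s`. `K = S ∪ K1 ∪ K2`: the vertices outside `K` are leaves, `α` of them outside `B` and `β` of them in `B`; `|K| = n + 1 - α - β`. `diagA` with `m = 2 s`, `N = n - α - β`, and `labR_lab`.
-/

set_option autoImplicit false

namespace Pool.Agent.Helper1.GN

open Finset Pool.Agent.Helper19.GH

open Classical in
private lemma feasA_sum {V : Type} [Fintype V] [DecidableEq V] {T : SimpleGraph V} (hT : T.IsTree)
    (h3 : 3 ≤ Fintype.card V) {B : Finset V} (hB : ∀ u w, T.Adj u w → (u ∈ B ↔ w ∉ B)) {r : V} {par : V → V} {dep : V → ℕ}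
    (h : RT T r par dep) (hr : T.degree r ≠ 1) {Q : Finset V}
    (hQ : Q ⊆ univ.filter fun a => T.degree a ≠ 1 ∧ a ∉ B) :
    ∑ a ∈ Q, (lv T a).card ≤ (univ.filter fun x => T.degree x = 1 ∧ x ∈ B ∧ par x ∈ Q).card := by
  have hmap : ∀ x ∈ (univ.filter fun x => T.degree x = 1 ∧ x ∈ B ∧ par x ∈ Q), par x ∈ Q := by
    intro x hx
    exact (mem_filter.mp hx).2.2.2
  rw [Finset.card_eq_sum_card_fiberwise hmap]
  apply Finset.sum_le_sum
  intro a ha
  apply Finset.card_le_card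
  intro x hx
  have hx2 : T.degree x = 1 ∧ T.Adj a x := (mem_filter.mp hx).2
  have hxr : x ≠ r := by
    rintro rfl
    exact hr hx2.1
  have haB : a ∉ B := (mem_filter.mp (hQ ha)).2.2
  have hpx : par x = a := by
    have e := (leaf_nb hT h3 hx2.1 hx2.2.symm).2 (par x) (h.adj x hxr)
    exact e
  have hxB : x ∈ B := by
    by_contra hc
    exact haB ((hB a x hx2.2).mpr hc)
  refine mem_filter.mpr ⟨mem_filter.mpr ⟨mem_univ _, hx2.1, hxB, ?_⟩, hpx⟩
  rw [hpx]
  exact ha

open Classical in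
theorem feasA {V : Type} [Fintype V] [DecidableEq V] {T : SimpleGraph V} (hT : T.IsTree) {n : ℕ} (hn : Fintype.card V = n + 1)
    (h3 : 3 ≤ Fintype.card V) {B : Finset V} (hB : ∀ u w, T.Adj u w → (u ∈ B ↔ w ∉ B)) {s : ℕ} (hs : 1 ≤ s)
    (hS : (univ.filter fun x => T.degree x ≠ 1).card = s) {Q : Finset V}
    (hQ : Q ⊆ univ.filter fun a => T.degree a ≠ 1 ∧ a ∉ B) (h1 : 4 * s ≤ ∑ a ∈ Q, (lv T a).card)
    (h2 : 4 * s ≤ ∑ a ∈ (univ.filter fun a => T.degree a ≠ 1 ∧ a ∉ B) \ Q, (lv T a).card) {α β : ℕ}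
    (hα : α + 6 * s ≤ (univ.filter fun x => T.degree x = 1 ∧ x ∉ B).card)
    (hβ : β + 8 * s ≤ (univ.filter fun x => T.degree x = 1 ∧ x ∈ B).card) : Feas T B n α β := by
  set S : Finset V := univ.filter fun x => T.degree x ≠ 1 with hSdef
  have hQne : Q.Nonempty := by
    by_contra hc
    rw [Finset.not_nonempty_iff_eq_empty] at hc
    rw [hc] at h1
    simp at h1
    omega
  obtain ⟨r, hrQ⟩ := hQne
  have hrA := (mem_filter.mp (hQ hrQ)).2
  have hrdeg : T.degree r ≠ 1 := hrA.1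
  have hrB : r ∉ B := hrA.2
  obtain ⟨par, dep, h⟩ := exists_RT T hT r
  have hpar : ∀ x, Even (dep x) ↔ x ∉ B := fun x => parity hB h hrB x
  have hcc : ∀ x, x ≠ r → T.degree (par x) ≠ 1 := fun x hx => core_closed hT h3 h hrdeg x hx
  set LA : Finset V := univ.filter fun x => T.degree x = 1 ∧ x ∉ B with hLA
  set LB : Finset V := univ.filter fun x => T.degree x = 1 ∧ x ∈ B with hLB
  have hq1 := feasA_sum hT h3 hB h hrdeg hQ
  have hq2 := feasA_sum hT h3 hB h hrdeg (Q := (univ.filter fun a => T.degree a ≠ 1 ∧ a ∉ B) \ Q) Finset.sdiff_subset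
  obtain ⟨L1, hL1s, hL1c⟩ := Finset.exists_subset_card_eq (le_trans h1 hq1)
  obtain ⟨L2, hL2s, hL2c⟩ := Finset.exists_subset_card_eq (le_trans h2 hq2)
  have hL1 : ∀ x ∈ L1, T.degree x = 1 ∧ x ∈ B ∧ par x ∈ Q := fun x hx => (mem_filter.mp (hL1s hx)).2
  have hL2 : ∀ x ∈ L2, T.degree x = 1 ∧ x ∈ B ∧ par x ∉ Q := by
    intro x hx
    have e := (mem_filter.mp (hL2s hx)).2
    exact ⟨e.1, e.2.1, (mem_sdiff.mp e.2.2).2⟩
  have hsubLB : L1 ∪ L2 ⊆ LB := by
    intro x hx
    rcases mem_union.mp hx with hx | hx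
    · exact mem_filter.mpr ⟨mem_univ _, (hL1 x hx).1, (hL1 x hx).2.1⟩
    · exact mem_filter.mpr ⟨mem_univ _, (hL2 x hx).1, (hL2 x hx).2.1⟩
  have hcardle : (L1 ∪ L2).card ≤ LB.card - β := by
    have := Finset.card_union_le L1 L2
    omega
  obtain ⟨K1, hK1a, hK1b, hK1c⟩ := Finset.exists_subsuperset_card_eq hsubLB hcardle (Nat.sub_le _ _)
  obtain ⟨K2, hK2s, hK2c⟩ := Finset.exists_subset_card_eq (Nat.sub_le LA.card α)
  have hK1m : ∀ x ∈ K1, T.degree x = 1 ∧ x ∈ B := fun x hx => (mem_filter.mp (hK1b hx)).2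
  have hK2m : ∀ x ∈ K2, T.degree x = 1 ∧ x ∉ B := fun x hx => (mem_filter.mp (hK2s hx)).2
  set K : Finset V := S ∪ (K1 ∪ K2) with hKdef
  have hKS : ∀ x, x ∈ K ↔ (T.degree x ≠ 1 ∨ x ∈ K1 ∨ x ∈ K2) := by
    intro x
    rw [hKdef, mem_union, mem_union, hSdef, mem_filter]
    simp
  have hnK : ∀ x, x ∉ K → T.degree x = 1 := by
    intro x hx
    by_contra hc
    exact hx ((hKS x).mpr (Or.inl hc))
  have ecA : (univ.filter fun x => x ∉ K ∧ x ∉ B) = LA \ K2 := by
    ext x
    simp only [mem_filter, mem_univ, true_and, mem_sdiff, hLA]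
    constructor
    · rintro ⟨hxK, hxB⟩
      exact ⟨⟨hnK x hxK, hxB⟩, fun hc => hxK ((hKS x).mpr (Or.inr (Or.inr hc)))⟩
    · rintro ⟨⟨hxd, hxB⟩, hxK⟩
      refine ⟨fun hc => ?_, hxB⟩
      rcases (hKS x).mp hc with hc | hc | hc
      · exact hc hxd
      · exact hxB (hK1m x hc).2
      · exact hxK hc
  have ecB : (univ.filter fun x => x ∉ K ∧ x ∈ B) = LB \ K1 := by
    ext x
    simp only [mem_filter, mem_univ, true_and, mem_sdiff, hLB]
    constructor
    · rintro ⟨hxK, hxB⟩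
      exact ⟨⟨hnK x hxK, hxB⟩, fun hc => hxK ((hKS x).mpr (Or.inr (Or.inl hc)))⟩
    · rintro ⟨⟨hxd, hxB⟩, hxK⟩
      refine ⟨fun hc => ?_, hxB⟩
      rcases (hKS x).mp hc with hc | hc | hc
      · exact hc hxd
      · exact hxK hc
      · exact (hK2m x hc).2 hxB
  have ccA : (univ.filter fun x => x ∉ K ∧ x ∉ B).card = α := by
    rw [ecA, Finset.card_sdiff_of_subset hK2s, hK2c]
    omega
  have ccB : (univ.filter fun x => x ∉ K ∧ x ∈ B).card = β := by
    rw [ecB, Finset.card_sdiff_of_subset hK1b, hK1c]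
    omega
  have hdAB : Disjoint LA LB := by
    rw [Finset.disjoint_left]
    intro x hx hx2
    exact (mem_filter.mp hx).2.2 (mem_filter.mp hx2).2.2
  have hdS : Disjoint S (LA ∪ LB) := by
    rw [Finset.disjoint_left]
    intro x hx hx2
    rcases mem_union.mp hx2 with hx2 | hx2
    · exact (mem_filter.mp hx).2 (mem_filter.mp hx2).2.1
    · exact (mem_filter.mp hx).2 (mem_filter.mp hx2).2.1
  have huniv : S ∪ (LA ∪ LB) = univ := by
    apply Finset.eq_univ_of_forall
    intro x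
    by_cases hx : T.degree x = 1
    · by_cases hxB : x ∈ B
      · exact mem_union_right _ (mem_union_right _ (mem_filter.mpr ⟨mem_univ _, hx, hxB⟩))
      · exact mem_union_right _ (mem_union_left _ (mem_filter.mpr ⟨mem_univ _, hx, hxB⟩))
    · exact mem_union_left _ (mem_filter.mpr ⟨mem_univ _, hx⟩)
  have hcardV : s + (LA.card + LB.card) = n + 1 := by
    rw [← hn, ← Finset.card_univ, ← huniv, Finset.card_union_of_disjoint hdS, Finset.card_union_of_disjoint hdAB, hS]
  have hd12 : Disjoint K1 K2 := by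
    rw [Finset.disjoint_left]
    intro x hx hx2
    exact (hK2m x hx2).2 (hK1m x hx).2
  have hdS2 : Disjoint S (K1 ∪ K2) := by
    rw [Finset.disjoint_left]
    intro x hx hx2
    rcases mem_union.mp hx2 with hx2 | hx2
    · exact (mem_filter.mp hx).2 (hK1m x hx2).1
    · exact (mem_filter.mp hx).2 (hK2m x hx2).1
  have hKcard : K.card = (n - α - β) + 1 := by
    rw [hKdef, Finset.card_union_of_disjoint hdS2, Finset.card_union_of_disjoint hd12, hS, hK1c, hK2c]
    omega
  have hSK : S ⊆ K := Finset.subset_union_left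
  have hrS : r ∈ S := mem_filter.mpr ⟨mem_univ _, hrdeg⟩
  have hparS : ∀ x, x ≠ r → par x ∈ S := fun x hx => mem_filter.mpr ⟨mem_univ _, hcc x hx⟩
  have hmemKS : ∀ x, x ∈ K1 ∨ x ∈ K2 → x ∈ K \ S := by
    intro x hx
    refine mem_sdiff.mpr ⟨(hKS x).mpr (Or.inr hx), fun hc => ?_⟩
    rcases hx with hx | hx
    · exact (mem_filter.mp hc).2 (hK1m x hx).1
    · exact (mem_filter.mp hc).2 (hK2m x hx).1
  obtain ⟨f, hf⟩ := diagA h hrS (fun x _ hx => hparS x hx) hSK
    (fun x _ hx => hparS x (by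
      rintro rfl
      exact hx hrS)) (N := n - α - β) (m := 2 * s) hKcard (by rw [hS]) Q
    (by
      have hsub : L1 ⊆ (K \ S).filter fun x => ¬ Even (dep x) ∧ par x ∈ Q := by
        intro x hx
        refine mem_filter.mpr ⟨hmemKS x (Or.inl (hK1a (mem_union_left _ hx))), ?_, (hL1 x hx).2.2⟩
        rw [hpar x, not_not]
        exact (hL1 x hx).2.1
      have := Finset.card_le_card hsub
      omega)
    (by
      have hsub : L2 ⊆ (K \ S).filter fun x => ¬ Even (dep x) ∧ par x ∉ Q := by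
        intro x hx
        refine mem_filter.mpr ⟨hmemKS x (Or.inl (hK1a (mem_union_right _ hx))), ?_, (hL2 x hx).2.2⟩
        rw [hpar x, not_not]
        exact (hL2 x hx).2.1
      have := Finset.card_le_card hsub
      omega)
    (by
      have hsub : K2 ⊆ (K \ S).filter fun x => Even (dep x) := by
        intro x hx
        refine mem_filter.mpr ⟨hmemKS x (Or.inr hx), ?_⟩
        rw [hpar x]
        exact (hK2m x hx).2
      have := Finset.card_le_card hsub
      omega)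
  exact ⟨K, hnK, ccA, ccB, f, labR_lab hB h hrB hf⟩

end Pool.Agent.Helper1.GN
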