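import Pool.Agent.Helper1.GN.Feas
import Pool.Agent.Helper1.GN.Blk
import Pool.Agent.Helper80.GH2.Final

/-!
Project GN: every tree with `n` edges and at most `n / 1000` vertices which are not leaves decomposes `K_{n,n}`.
-/

set_option autoImplicit false

namespace Pool.Agent.Helper1.GN

open Finset Pool.Agent.Helper19.GH

section

variable {V : Type} [Fintype V] [DecidableEq V] {T : SimpleGraph V}

open Classical in
/-- Assembly for a block structure. -/
theorem main_q (hT : T.IsTree) {n : ℕ} (hn : Fintype.card V = n + 1)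
    (h3 : 3 ≤ Fintype.card V) {B : Finset V} (hB : ∀ u w, T.Adj u w → (u ∈ B ↔ w ∉ B)) {s : ℕ} (hs : 1 ≤ s)
    (hS : (univ.filter fun x => T.degree x ≠ 1).card = s) (q : ℕ) (N : Fin q → ℕ) (hN : ∀ i, 0 < N i)
    (hsum : ∑ i, N i = n) (G : Fin q → Fin q → Prop) (hG : ∀ i j, G i j → G j i) (hG0 : ∀ i, ¬ G i i)
    (hα : ∀ i, (∑ j, if j ≠ i ∧ ¬ G i j then N j else 0) + 40 * s ≤ (univ.filter fun x => T.degree x = 1 ∧ x ∉ B).card)
    (hβ : ∀ i, (∑ j, if G i j then N j else 0) + 40 * s ≤ (univ.filter fun x => T.degree x = 1 ∧ x ∈ B).card)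
    (hβ' : ∀ i, 8 * s ≤ ∑ j, if G i j then N j else 0) :
    Decomposes T (completeBipartiteGraph (Fin n) (Fin n)) := by
  have h0 : ∀ i, n - (∑ j, if j ≠ i ∧ ¬ G i j then N j else 0) - (∑ j, if G i j then N j else 0) = N i := by
    intro i
    have h1 : ∑ j, N j = (∑ j, if j ≠ i ∧ ¬ G i j then N j else 0) + (∑ j, if G i j then N j else 0) + ∑ j, if j = i then N j else 0 := by
      rw [← sum_add_distrib, ← sum_add_distrib]
      refine sum_congr rfl fun j _ => ?_
      by_cases hj : j = i
      · subst hj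
        simp [hG0 j]
      · by_cases hg : G i j <;> simp [hj, hg]
    rw [sum_ite_eq' univ i N, if_pos (mem_univ i), hsum] at h1
    omega
  have h1 := fun i => feas hT hn h3 hB hs hS (hα i) (hβ i) (hβ' i)
  choose K h2 h4 h5 f h6 using h1
  refine blocks V T hT n hn B hB q N hN hsum G hG hG0 K ?_ (fun i => (h5 i).le) (fun i => (h4 i).le) ?_
  · intro i x hx y hy
    obtain ⟨h7, h8⟩ := leaf_nb hT h3 (h2 i x hx) hy
    exact ⟨by_contra fun h9 => h7 (h2 i y h9), h8⟩
  · intro i
    have h7 : ∃ f : V → ZMod (n - (∑ j, if j ≠ i ∧ ¬ G i j then N j else 0) - (∑ j, if G i j then N j else 0)),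
        Lab T B (K i) (n - (∑ j, if j ≠ i ∧ ¬ G i j then N j else 0) - (∑ j, if G i j then N j else 0)) f := ⟨f i, h6 i⟩
    rw [h0 i] at h7
    exact h7

/-- Neighbours in the cycle of length 5. -/
def C5 (i j : Fin 5) : Prop := j = i + 1 ∨ i = j + 1

instance : DecidableRel C5 := fun i j => inferInstanceAs (Decidable (j = i + 1 ∨ i = j + 1))

lemma sum_if_le {q : ℕ} (P : Fin q → Prop) [DecidablePred P] (N : Fin q → ℕ) (M c : ℕ) (hN : ∀ i, N i ≤ M)
    (hc : (univ.filter P).card ≤ c) : (∑ j, if P j then N j else 0) ≤ c * M := by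
  rw [← sum_filter]
  calc ∑ j ∈ univ.filter P, N j ≤ ∑ _j ∈ univ.filter P, M := sum_le_sum fun j _ => hN j
    _ = (univ.filter P).card * M := by rw [sum_const, smul_eq_mul]
    _ ≤ c * M := Nat.mul_le_mul_right _ hc

lemma le_sum_if {q : ℕ} (P : Fin q → Prop) [DecidablePred P] (N : Fin q → ℕ) (M : ℕ) (hN : ∀ i, M ≤ N i)
    (hc : 1 ≤ (univ.filter P).card) : M ≤ ∑ j, if P j then N j else 0 := by
  rw [← sum_filter]
  calc M ≤ (univ.filter P).card * M := Nat.le_mul_of_pos_left _ hc
    _ = ∑ _j ∈ univ.filter P, M := by rw [sum_const, smul_eq_mul]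
    _ ≤ ∑ j ∈ univ.filter P, N j := sum_le_sum fun j _ => hN j

open Classical in
theorem main_aux (hT : T.IsTree) {n : ℕ} (hn : Fintype.card V = n + 1)
    (h3 : 3 ≤ Fintype.card V) {B : Finset V} (hB : ∀ u w, T.Adj u w → (u ∈ B ↔ w ∉ B)) {s : ℕ} (hs : 1 ≤ s)
    (hS : (univ.filter fun x => T.degree x ≠ 1).card = s) (hsn : 1000 * s ≤ n) (hc : n < 20 * Bᶜ.card)
    (hle : (univ.filter fun x => T.degree x = 1 ∧ x ∉ B).card ≤ (univ.filter fun x => T.degree x = 1 ∧ x ∈ B).card) :
    Decomposes T (completeBipartiteGraph (Fin n) (Fin n)) := by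
  have h1 : (univ.filter fun x => T.degree x = 1 ∧ x ∉ B).card + (univ.filter fun x => T.degree x = 1 ∧ x ∈ B).card + s = n + 1 := by
    have e1 : (univ.filter fun x => T.degree x = 1).card + (univ.filter fun x => ¬ T.degree x = 1).card = n + 1 := by
      rw [card_filter_add_card_filter_not, card_univ, hn]
    have e2 := card_filter_add_card_filter_not (s := univ.filter fun x => T.degree x = 1) (fun x => x ∈ B)
    rw [filter_filter, filter_filter] at e2
    have e3 : (univ.filter fun x => ¬ T.degree x = 1).card = s := hS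
    omega
  have h2 : Bᶜ.card ≤ (univ.filter fun x => T.degree x = 1 ∧ x ∉ B).card + s := by
    rw [← hS]
    refine le_trans (card_le_card fun x hx => ?_) (card_union_le _ _)
    rw [mem_union, mem_filter, mem_filter]
    by_cases h : T.degree x = 1
    · exact Or.inl ⟨mem_univ _, h, mem_compl.1 hx⟩
    · exact Or.inr ⟨mem_univ _, h⟩
  set LE := (univ.filter fun x => T.degree x = 1 ∧ x ∉ B).card with hLE
  set LO := (univ.filter fun x => T.degree x = 1 ∧ x ∈ B).card with hLO
  by_cases h4 : LE < 2 * (n / 5 + 1) + 40 * s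
  · -- two blocks
    refine main_q hT hn h3 hB hs hS 2 (fun i => if i = 0 then n / 2 else n - n / 2) ?_ ?_ (fun i j => i ≠ j)
      (fun i j h => h.symm) (fun i h => h rfl) ?_ ?_ ?_
    · intro i
      show 0 < if i = 0 then n / 2 else n - n / 2
      split_ifs <;> omega
    · rw [Fin.sum_univ_two]
      simp only [if_true, Fin.isValue, one_ne_zero, if_false]
      omega
    · intro i
      have h5 : ∀ j : Fin 2, ¬ (j ≠ i ∧ ¬ i ≠ j) := fun j h6 => h6.2 (Ne.symm h6.1)
      refine le_trans (Nat.add_le_add_right (le_of_eq (sum_eq_zero fun j _ => if_neg (h5 j))) _) ?_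
      rw [← hLE]
      omega
    · intro i
      have := sum_if_le (fun j => i ≠ j) (fun i : Fin 2 => if i = 0 then n / 2 else n - n / 2) (n - n / 2) 1
        (fun i => by split_ifs <;> omega) (by fin_cases i <;> decide)
      rw [← hLO]
      refine le_trans (Nat.add_le_add_right (le_trans (le_of_eq ?_) this) _) ?_
      · refine sum_congr rfl fun j _ => ?_
        congr 1
      · omega
    · intro i
      have := le_sum_if (fun j => i ≠ j) (fun i : Fin 2 => if i = 0 then n / 2 else n - n / 2) (n / 2)
        (fun i => by split_ifs <;> omega) (by fin_cases i <;> decide)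
      refine le_trans ?_ (le_trans this (le_of_eq ?_))
      · omega
      · refine sum_congr rfl fun j _ => ?_
        congr 1
  · -- five blocks
    push Not at h4
    refine main_q hT hn h3 hB hs hS 5 (fun i => n / 5 + if i.val < n % 5 then 1 else 0) ?_ ?_ C5
      ?_ ?_ ?_ ?_ ?_
    · intro i
      show 0 < n / 5 + _
      omega
    · rw [Fin.sum_univ_five]
      have h5 := Nat.mod_lt n (show 0 < 5 by norm_num)
      have h6 := Nat.div_add_mod n 5
      simp only [Fin.isValue, Fin.val_zero, Fin.val_one, Fin.val_two]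
      have e3 : ((3 : Fin 5) : ℕ) = 3 := rfl
      have e4 : ((4 : Fin 5) : ℕ) = 4 := rfl
      rw [e3, e4]
      split_ifs <;> omega
    · rintro i j (h | h)
      · exact Or.inr h
      · exact Or.inl h
    · rintro i (h | h) <;> · fin_cases i <;> revert h <;> decide
    · intro i
      have := sum_if_le (fun j => j ≠ i ∧ ¬ C5 i j) (fun i : Fin 5 => n / 5 + if i.val < n % 5 then 1 else 0) (n / 5 + 1) 2
        (fun i => by split_ifs <;> omega) (by fin_cases i <;> decide)
      rw [← hLE]
      refine le_trans (Nat.add_le_add_right (le_trans (le_of_eq ?_) this) _) ?_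
      · refine sum_congr rfl fun j _ => ?_
        congr 1
      · omega
    · intro i
      have := sum_if_le (fun j => C5 i j) (fun i : Fin 5 => n / 5 + if i.val < n % 5 then 1 else 0) (n / 5 + 1) 2
        (fun i => by split_ifs <;> omega) (by fin_cases i <;> decide)
      rw [← hLO]
      refine le_trans (Nat.add_le_add_right (le_trans (le_of_eq ?_) this) _) ?_
      · refine sum_congr rfl fun j _ => ?_
        congr 1
      · omega
    · intro i
      have := le_sum_if (fun j => C5 i j) (fun i : Fin 5 => n / 5 + if i.val < n % 5 then 1 else 0) (n / 5)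
        (fun i => by split_ifs <;> omega) (by fin_cases i <;> decide)
      refine le_trans ?_ (le_trans this (le_of_eq ?_))
      · omega
      · refine sum_congr rfl fun j _ => ?_
        congr 1

end

open Classical in
/-- Every tree with `n` edges and at most `n / 1000` vertices which are not leaves decomposes `K_{n,n}`. -/
theorem few_nonleaves (V : Type) [Fintype V] (T : SimpleGraph V) (n : ℕ) (hT : T.IsTree) (hn : Fintype.card V = n + 1)
    (h : 1000 * (univ.filter fun x => T.degree x ≠ 1).card ≤ n) :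
    Decomposes T (completeBipartiteGraph (Fin n) (Fin n)) := by
  obtain ⟨r⟩ := hT.connected.nonempty
  obtain ⟨par, dep, hr⟩ := exists_RT T hT r
  set B : Finset V := univ.filter fun x => ¬ Even (dep x) with hBdef
  have hB : ∀ u w, T.Adj u w → (u ∈ B ↔ w ∉ B) := by
    intro u w huw
    rw [hBdef, mem_filter, mem_filter, and_iff_right (mem_univ _), and_iff_right (mem_univ _), not_not]
    rcases hr.edge u w huw with ⟨h1, h2⟩ | ⟨h1, h2⟩
    · have := hr.dep_par u h1
      rw [h2] at this
      rw [this, Nat.even_add_one, not_not]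
    · have := hr.dep_par w h1
      rw [h2] at this
      rw [this, Nat.even_add_one]
  have hB' : ∀ u w, T.Adj u w → (u ∈ Bᶜ ↔ w ∉ Bᶜ) := by
    intro u w huw
    have := hB u w huw
    rw [mem_compl, mem_compl]
    tauto
  rcases Nat.lt_or_ge n 2 with h2 | h2
  · -- trivial cases
    have h0 : n = 0 ∨ n = 1 := by omega
    rcases h0 with h0 | h0
    · subst h0
      exact ⟨0, fun i => i.elim0, fun i => i.elim0, fun i => i.elim0, fun x => by
        rcases x with x | x <;> exact x.elim0⟩
    · subst h0
      exact Pool.Agent.Helper80.GH.two_dense V T 1 hT hn (fun D hD hD1 => by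
        have := Nat.dvd_one.1 hD
        omega)
  have h3 : 3 ≤ Fintype.card V := by omega
  have hs : 1 ≤ (univ.filter fun x => T.degree x ≠ 1).card := by
    rw [Nat.one_le_iff_ne_zero, Ne, card_eq_zero, filter_eq_empty_iff]
    intro h4
    have h5 : T.degree r = 1 := by
      have := h4 (mem_univ r)
      tauto
    have h6 : (T.neighborFinset r).card = 1 := by
      rw [SimpleGraph.card_neighborFinset_eq_degree]
      exact h5
    obtain ⟨y, hy⟩ := card_eq_one.1 h6
    have h7 : T.Adj r y := by
      rw [← SimpleGraph.mem_neighborFinset, hy]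
      exact mem_singleton_self y
    exact (leaf_nb hT h3 h5 h7).1 (by
      have := h4 (mem_univ y)
      tauto)
  by_cases h5 : 20 * B.card ≤ n
  · exact Pool.Agent.Helper80.GH2.small_class V T n B hT hn hB (Or.inl h5)
  by_cases h6 : 20 * Bᶜ.card ≤ n
  · exact Pool.Agent.Helper80.GH2.small_class V T n Bᶜ hT hn hB' (Or.inl h6)
  rcases le_total (univ.filter fun x => T.degree x = 1 ∧ x ∉ B).card (univ.filter fun x => T.degree x = 1 ∧ x ∈ B).card with h7 | h7
  · exact main_aux hT hn h3 hB hs rfl h (by omega) h7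
  · refine main_aux hT hn h3 hB' hs rfl h (by rw [compl_compl]; omega) ?_
    have e3 : (univ.filter fun x => T.degree x = 1 ∧ x ∈ Bᶜ) = univ.filter fun x => T.degree x = 1 ∧ x ∉ B := by
      ext x
      simp
    have e4 : (univ.filter fun x => T.degree x = 1 ∧ x ∉ Bᶜ) = univ.filter fun x => T.degree x = 1 ∧ x ∈ B := by
      ext x
      simp
    rw [e3, e4]
    exact h7

end Pool.Agent.Helper1.GN
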